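import Pool.Agent.Run7.h469.LF.Main

/-!
# Recurrence sequences of order two
-/

set_option autoImplicit false

namespace Run7.h469.LF

open Finset Filter

/-- the sequence with `x_0 = a`, `x_1 = b`, `x_(n+2) = s x_(n+1) + t x_n` -/
def seq (s t a b : ℕ) : ℕ → ℕ
  | 0 => a
  | 1 => b
  | n + 2 => s * seq s t a b (n + 1) + t * seq s t a b n

variable {s t : ℕ}

lemma seq_lin (s t a b : ℕ) : ∀ n, seq s t a b n = seq s t 1 0 n * a + seq s t 0 1 n * b
  | 0 => by simp [seq]
  | 1 => by simp [seq]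
  | n + 2 => by
    have h1 := seq_lin s t a b n
    have h2 := seq_lin s t a b (n + 1)
    rw [seq, h1, h2, seq, seq]
    ring

lemma seq_one_zero (s t : ℕ) : ∀ n, seq s t 1 0 (n + 1) = t * seq s t 0 1 n
  | 0 => by simp [seq]
  | 1 => by simp [seq]
  | n + 2 => by
    have h1 := seq_one_zero s t n
    have h2 := seq_one_zero s t (n + 1)
    rw [seq, h1, h2]
    conv_rhs => rw [seq]
    ring

lemma seq_coprime (hst : Nat.Coprime s t) : ∀ n,
    Nat.Coprime (seq s t 0 1 (n + 1)) (seq s t 0 1 n) ∧ Nat.Coprime (seq s t 0 1 (n + 1)) t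
  | 0 => by simp [seq]
  | n + 1 => by
    obtain ⟨h1, h2⟩ := seq_coprime hst n
    have e : seq s t 0 1 (n + 1 + 1) = s * seq s t 0 1 (n + 1) + t * seq s t 0 1 n := by rw [seq]
    constructor
    · rw [e, Nat.coprime_mul_right_add_left]
      exact Nat.Coprime.mul_left h2.symm h1.symm
    · rw [e, Nat.coprime_add_mul_left_left]
      exact Nat.Coprime.mul_left hst h2

lemma coprime_coeff (hst : Nat.Coprime s t) (n : ℕ) : Nat.Coprime (seq s t 1 0 n) (seq s t 0 1 n) := by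
  cases n with
  | zero => simp [seq]
  | succ n =>
    obtain ⟨h1, h2⟩ := seq_coprime hst n
    rw [seq_one_zero]
    exact Nat.Coprime.mul_left h2.symm h1.symm

lemma seq_growth (hs : 1 ≤ s) (ht : 1 ≤ t) : ∀ n, 2 ^ n ≤ seq s t 0 1 (2 * n + 1) ∧ 2 ^ n ≤ seq s t 0 1 (2 * n + 2)
  | 0 => by
    simp [seq]
    omega
  | n + 1 => by
    obtain ⟨h1, h2⟩ := seq_growth hs ht n
    have e1 : seq s t 0 1 (2 * (n + 1) + 1) = s * seq s t 0 1 (2 * n + 2) + t * seq s t 0 1 (2 * n + 1) := by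
      rw [show 2 * (n + 1) + 1 = (2 * n + 1) + 2 by ring, seq]
    have e2 : seq s t 0 1 (2 * (n + 1) + 2) = s * seq s t 0 1 (2 * (n + 1) + 1) + t * seq s t 0 1 (2 * n + 2) := by
      rw [show 2 * (n + 1) + 2 = (2 * n + 2) + 2 by ring, seq]
      rfl
    have h3 : 2 ^ (n + 1) ≤ seq s t 0 1 (2 * (n + 1) + 1) := by
      rw [e1, pow_succ]
      nlinarith
    refine ⟨h3, ?_⟩
    rw [e2]
    nlinarith

/-- the indices are small -/
lemma index_le (hs : 1 ≤ s) (ht : 1 ≤ t) (n : ℕ) (Y : ℝ) (hY : 1 ≤ Y) (h : (seq s t 0 1 n : ℝ) ≤ Y) :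
    (n : ℝ) ≤ 2 + 4 * Real.log Y := by
  have hl2 := Real.log_two_gt_d9
  have hlY : 0 ≤ Real.log Y := Real.log_nonneg hY
  rcases Nat.eq_zero_or_pos n with h0 | h0
  · rw [h0]
    push_cast
    linarith
  obtain ⟨j, hj⟩ : ∃ j, n = 2 * j + 1 ∨ n = 2 * j + 2 := ⟨(n - 1) / 2, by omega⟩
  have h1 : (2 : ℝ) ^ j ≤ Y := by
    refine le_trans ?_ h
    rcases hj with hj | hj
    · rw [hj]
      exact_mod_cast (seq_growth hs ht j).1
    · rw [hj]
      exact_mod_cast (seq_growth hs ht j).2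
  have h2 : (j : ℝ) * Real.log 2 ≤ Real.log Y := by
    rw [← Real.log_pow]
    exact Real.log_le_log (by positivity) h1
  have h3 : (n : ℝ) ≤ 2 * j + 2 := by
    rcases hj with hj | hj
    · rw [hj]; push_cast; linarith
    · rw [hj]; push_cast; linarith
  have hj0 : (0 : ℝ) ≤ j := Nat.cast_nonneg j
  nlinarith

open Classical in
/-- **Recurrence sequences.** -/
theorem recurrence (hs : 1 ≤ s) (ht : 1 ≤ t) (hst : Nat.Coprime s t) (θ η : ℝ) (hθ0 : 0 < θ) (hθ1 : θ < 1)
    (hη0 : 0 < η) (P : ℕ → Prop) (hP : Run7.h469.CT.Few θ P) (A U : ℕ) : ∃ X₀ : ℕ, ∀ X : ℕ, X₀ ≤ X →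
      (((Icc 1 X ×ˢ Icc 1 X).filter (fun z : ℕ × ℕ => ∃ (n u m : ℕ) (v : ℤ),
        (seq s t z.1 z.2 n : ℝ) ≤ (X : ℝ) ^ (1 / (1 - θ) - η) ∧ 1 ≤ u ∧ (u : ℝ) ≤ Real.log X ^ U ∧
        |(v : ℝ)| ≤ Real.log X ^ U ∧ 0 < m ∧ (m : ℤ) = u * seq s t z.1 z.2 n + v ∧ ¬ P m)).card : ℝ) ≤
        (X : ℝ) ^ 2 / Real.log X ^ A := by
  have h1θ : 0 < 1 - θ := by linarith
  obtain ⟨τ, hτ⟩ : ∃ τ, τ = θ / (1 - θ) := ⟨_, rfl⟩
  have hτ0 : 0 < τ := by rw [hτ]; positivity
  have hτ1 : 1 / (1 - θ) = 1 + τ := by rw [hτ]; field_simp; ring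
  obtain ⟨X₁, hX₁⟩ := family (d := 2) (by norm_num) θ (η / 4) hθ0 hθ1 (by positivity) P hP (A + 1) (2 * U + 4)
  have htend : Tendsto (fun X : ℕ => Real.log (X : ℝ)) atTop atTop :=
    Real.tendsto_log_atTop.comp tendsto_natCast_atTop_atTop
  have hev : ∀ᶠ X : ℕ in atTop, Real.log X ^ U ≤ (X : ℝ) ^ (η / 4) ∧ 4 * Real.log X ^ A ≤ (X : ℝ) ^ (η / 2) ∧
      (8 * (τ + 2) + 8 ≤ Real.log X) ∧ Real.log X ^ U ≤ (X : ℝ) ^ (1 : ℝ) ∧ 1 ≤ X := by
    filter_upwards [ev_log 1 U (η / 4) (by positivity), ev_log 4 A (η / 2) (by positivity),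
      htend.eventually_ge_atTop (8 * (τ + 2) + 8), ev_log 1 U 1 one_pos, eventually_ge_atTop 1] with X h1 h2 h3 h4 h5
    rw [one_mul] at h1 h4
    exact ⟨h1, h2, h3, h4, h5⟩
  obtain ⟨X₂, hX₂⟩ := eventually_atTop.1 hev
  refine ⟨max X₁ X₂, fun X hX => ?_⟩
  obtain ⟨f1, f2, f3, f4, f5⟩ := hX₂ X (le_trans (le_max_right _ _) hX)
  obtain ⟨L, hL⟩ : ∃ L, L = Real.log (X : ℝ) := ⟨_, rfl⟩
  have hF := hX₁ X (le_trans (le_max_left _ _) hX)
  rw [← hL] at f1 f2 f3 f4 hF ⊢
  have hX1 : (1 : ℝ) ≤ X := by exact_mod_cast f5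
  have hX0 : (0 : ℝ) < X := by linarith
  have hL8 : 8 ≤ L := by linarith
  have hL0 : 0 < L := by linarith
  have hL1 : 1 ≤ L := by linarith
  have hLU : 1 ≤ L ^ U := one_le_pow₀ hL1
  -- the family of the forms
  obtain ⟨K, hK⟩ : ∃ K, K = ⌊L ^ U⌋₊ := ⟨_, rfl⟩
  obtain ⟨N, hN⟩ : ∃ N, N = ⌊L ^ 2⌋₊ := ⟨_, rfl⟩
  have hK1 : 1 ≤ K := by rw [hK]; exact Nat.le_floor (by push_cast; exact hLU)
  have hKle : (K : ℝ) ≤ L ^ U := by rw [hK]; exact Nat.floor_le (by positivity)
  have hNle : (N : ℝ) ≤ L ^ 2 := by rw [hN]; exact Nat.floor_le (by positivity)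
  set f : ℕ × ℕ × ℤ → (Fin 2 → ℤ) × ℤ := fun z =>
    (![(z.2.1 : ℤ) * seq s t 1 0 z.1, (z.2.1 : ℤ) * seq s t 0 1 z.1], z.2.2) with hf
  set 𝓛 : Finset ((Fin 2 → ℤ) × ℤ) := ((range (N + 1) ×ˢ (Icc 1 K ×ˢ Icc (-(K : ℤ)) K)).image f).filter
    (fun l => Admissible (θ / (1 - θ) - η / 4) (2 * U + 4) X l.1 l.2) with h𝓛
  have h𝓛card : (𝓛.card : ℝ) ≤ L ^ (2 * U + 4) := by
    have h1 : 𝓛.card ≤ (N + 1) * (K * (2 * K + 1)) := by
      refine (card_filter_le _ _).trans (card_image_le.trans ?_)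
      rw [card_product, card_product, card_range, Nat.card_Icc, Int.card_Icc]
      apply Nat.mul_le_mul_left
      apply Nat.mul_le_mul
      · omega
      · omega
    have h2 : (𝓛.card : ℝ) ≤ (N + 1) * (K * (2 * K + 1)) := by exact_mod_cast h1
    have h3 : (N : ℝ) + 1 ≤ 2 * L ^ 2 := by nlinarith
    have h4 : 2 * (K : ℝ) + 1 ≤ 3 * L ^ U := by linarith
    calc (𝓛.card : ℝ) ≤ (N + 1) * (K * (2 * K + 1)) := h2
      _ ≤ (2 * L ^ 2) * (L ^ U * (3 * L ^ U)) := by
          apply mul_le_mul h3 _ (by positivity) (by positivity)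
          exact mul_le_mul hKle h4 (by positivity) (by positivity)
      _ = 6 * (L ^ 2 * L ^ (2 * U)) := by rw [two_mul U, pow_add]; ring
      _ ≤ L ^ 2 * (L ^ 2 * L ^ (2 * U)) := by
          apply mul_le_mul_of_nonneg_right _ (by positivity)
          nlinarith
      _ = L ^ (2 * U + 4) := by rw [pow_add]; ring
  have hfam := hF 𝓛 h𝓛card (fun l hl => (mem_filter.1 hl).2)
  -- the small initial values
  obtain ⟨Y, hY⟩ : ∃ Y, Y = (X : ℝ) ^ (1 - η / 2) := ⟨_, rfl⟩
  have hY0 : 0 < Y := by rw [hY]; positivity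
  have hYX : Y * (X : ℝ) ^ (η / 2) = X := by
    rw [hY, ← Real.rpow_add hX0]
    have : 1 - η / 2 + η / 2 = 1 := by ring
    rw [this, Real.rpow_one]
  set B := (Icc 1 X ×ˢ Icc 1 X).filter (fun z : ℕ × ℕ => ∃ (n u m : ℕ) (v : ℤ),
        (seq s t z.1 z.2 n : ℝ) ≤ (X : ℝ) ^ (1 / (1 - θ) - η) ∧ 1 ≤ u ∧ (u : ℝ) ≤ L ^ U ∧
        |(v : ℝ)| ≤ L ^ U ∧ 0 < m ∧ (m : ℤ) = u * seq s t z.1 z.2 n + v ∧ ¬ P m) with hB
  set S1 := ((Icc 1 X).filter (fun a : ℕ => (a : ℝ) ≤ Y)) ×ˢ Icc 1 X with hS1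
  set S2 := Icc 1 X ×ˢ ((Icc 1 X).filter (fun a : ℕ => (a : ℝ) ≤ Y)) with hS2
  set S3 := (Icc 1 X ×ˢ Icc 1 X).filter (fun z : ℕ × ℕ => ∃ l ∈ 𝓛, 0 < val l.1 l.2 ![z.1, z.2] ∧
    ¬ P (val l.1 l.2 ![z.1, z.2]).toNat) with hS3
  have hsub : B ⊆ S1 ∪ S2 ∪ S3 := by
    rintro ⟨a, b⟩ hz
    rw [hB, mem_filter] at hz
    obtain ⟨hz1, n, u, m, v, g1, g2, g3, g4, g5, g6, g7⟩ := hz
    simp only at g1 g6
    have hz1' := mem_product.1 hz1
    simp only at hz1'
    rw [mem_union, mem_union]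
    by_cases ha : (a : ℝ) ≤ Y
    · exact Or.inl (Or.inl (mem_product.2 ⟨mem_filter.2 ⟨hz1'.1, ha⟩, hz1'.2⟩))
    by_cases hb : (b : ℝ) ≤ Y
    · exact Or.inl (Or.inr (mem_product.2 ⟨hz1'.1, mem_filter.2 ⟨hz1'.2, hb⟩⟩))
    right
    rw [not_le] at ha hb
    rw [hS3, mem_filter]
    refine ⟨hz1, ?_⟩
    -- the coefficients are small
    obtain ⟨V, hV⟩ : ∃ V, V = seq s t 1 0 n := ⟨_, rfl⟩
    obtain ⟨Z, hZ⟩ : ∃ Z, Z = seq s t 0 1 n := ⟨_, rfl⟩
    have hlin := seq_lin s t a b n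
    rw [← hV, ← hZ] at hlin
    have hsum : ((V : ℝ) + Z) * Y ≤ (X : ℝ) ^ (1 / (1 - θ) - η) := by
      refine le_trans ?_ g1
      rw [hlin]
      push_cast
      have h1 : (V : ℝ) * Y ≤ V * a := mul_le_mul_of_nonneg_left ha.le (by positivity)
      have h2 : (Z : ℝ) * Y ≤ Z * b := mul_le_mul_of_nonneg_left hb.le (by positivity)
      linarith
    have hsum2 : (V : ℝ) + Z ≤ (X : ℝ) ^ (τ - η / 2) := by
      have h1 : (X : ℝ) ^ (1 / (1 - θ) - η) = (X : ℝ) ^ (τ - η / 2) * Y := by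
        rw [hY, ← Real.rpow_add hX0, hτ1]
        congr 1
        ring
      rw [h1] at hsum
      exact le_of_mul_le_mul_right hsum hY0
    have hcop : Nat.Coprime V Z := by rw [hV, hZ]; exact coprime_coeff hst n
    have hVZ : 1 ≤ V + Z := by
      by_contra hcon
      have h1 : V = 0 := by omega
      have h2 : Z = 0 := by omega
      rw [h1, h2] at hcop
      simp at hcop
    have hn : n < N + 1 := by
      have h1 : (Z : ℝ) ≤ (X : ℝ) ^ (τ + 1) := by
        have h2 : (X : ℝ) ^ (τ - η / 2) ≤ (X : ℝ) ^ (τ + 1) :=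
          Real.rpow_le_rpow_of_exponent_le hX1 (by linarith)
        have h3 : (0 : ℝ) ≤ V := by positivity
        linarith
      rw [hZ] at h1
      have h2 := index_le hs ht n ((X : ℝ) ^ (τ + 1)) (Real.one_le_rpow hX1 (by linarith)) h1
      rw [Real.log_rpow hX0, ← hL] at h2
      have h3 : n ≤ N := by
        rw [hN]
        apply Nat.le_floor
        have h4 : 2 + 4 * ((τ + 1) * L) ≤ L ^ 2 := by nlinarith
        linarith
      omega
    have huK : u ≤ K := by rw [hK]; exact Nat.le_floor g3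
    have hvK : |v| ≤ (K : ℤ) := by
      have h1 : ((v.natAbs : ℕ) : ℝ) ≤ L ^ U := by
        rw [Nat.cast_natAbs]
        push_cast
        exact g4
      have h2 : v.natAbs ≤ K := by rw [hK]; exact Nat.le_floor h1
      rw [← Int.natCast_natAbs]
      exact_mod_cast h2
    have hval : val (f (n, u, v)).1 (f (n, u, v)).2 ![a, b] = m := by
      rw [hf]
      simp only
      unfold val
      rw [Fin.sum_univ_two, g6, hlin, ← hV, ← hZ]
      simp only [Matrix.cons_val_zero, Matrix.cons_val_one]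
      push_cast
      ring
    refine ⟨f (n, u, v), ?_, ?_, ?_⟩
    · rw [h𝓛, mem_filter]
      constructor
      · apply mem_image_of_mem
        rw [mem_product, mem_product, mem_range, mem_Icc, mem_Icc]
        exact ⟨hn, ⟨g2, huK⟩, abs_le.1 hvK⟩
      · have hu0 : (0 : ℝ) < u := by exact_mod_cast g2
        constructor
        · -- the content
          have h1 : IsCoprime (V : ℤ) (Z : ℤ) := Nat.isCoprime_iff_coprime.2 hcop
          obtain ⟨α, β, hαβ⟩ := h1
          have h2 : ∑ i, (f (n, u, v)).1 i * (![α, β] : Fin 2 → ℤ) i = u := by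
            rw [hf]
            simp only
            rw [Fin.sum_univ_two, ← hV, ← hZ]
            simp only [Matrix.cons_val_zero, Matrix.cons_val_one]
            calc (u : ℤ) * V * α + u * Z * β = u * (α * V + β * Z) := by ring
              _ = u := by rw [hαβ, mul_one]
          refine ⟨![α, β], ?_, ?_⟩
          · rw [h2]
            exact_mod_cast g2
          · rw [h2, ← hL]
            push_cast
            refine g3.trans (pow_le_pow_right₀ hL1 (by omega))
        · -- the largest coefficient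
          have hmain : ∀ (w : ℕ), 1 ≤ w → w ≤ V + Z →
              |(((u : ℤ) * w : ℤ) : ℝ)| ≤ (X : ℝ) ^ (θ / (1 - θ) - η / 4) ∧ |v| ≤ |(u : ℤ) * w| * X := by
            intro w hw1 hw2
            constructor
            · push_cast
              rw [abs_mul, Nat.abs_cast, Nat.abs_cast]
              have h1 : (w : ℝ) ≤ (X : ℝ) ^ (τ - η / 2) := le_trans (by exact_mod_cast hw2) hsum2
              calc (u : ℝ) * w ≤ (X : ℝ) ^ (η / 4) * (X : ℝ) ^ (τ - η / 2) :=
                    mul_le_mul (g3.trans f1) h1 (by positivity) (by positivity)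
                _ = (X : ℝ) ^ (θ / (1 - θ) - η / 4) := by
                    rw [← Real.rpow_add hX0, hτ]
                    congr 1
                    ring
            · have h1 : (K : ℤ) ≤ X := by
                have : (K : ℝ) ≤ X := by
                  rw [Real.rpow_one] at f4
                  exact hKle.trans f4
                exact_mod_cast this
              have h2 : (1 : ℤ) ≤ |(u : ℤ) * w| := by
                rw [abs_mul, Nat.abs_cast, Nat.abs_cast]
                have h3 : (1 : ℤ) ≤ u := by exact_mod_cast g2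
                have h4 : (1 : ℤ) ≤ w := by exact_mod_cast hw1
                nlinarith
              have h3 : (0 : ℤ) ≤ X := by positivity
              nlinarith
          rw [hf]
          simp only
          rw [← hV, ← hZ]
          rcases le_total V Z with h | h
          · refine ⟨1, ?_, ?_⟩
            · intro j
              fin_cases j
              · simp only [Fin.zero_eta, Fin.isValue, Matrix.cons_val_zero, Matrix.cons_val_one]
                rw [abs_mul, abs_mul, Nat.abs_cast, Nat.abs_cast, Nat.abs_cast]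
                apply mul_le_mul_of_nonneg_left _ (by positivity)
                exact_mod_cast h
              · simp
            · exact hmain Z (by omega) (by omega)
          · refine ⟨0, ?_, ?_⟩
            · intro j
              fin_cases j
              · simp
              · simp only [Fin.mk_one, Fin.isValue, Matrix.cons_val_zero, Matrix.cons_val_one]
                rw [abs_mul, abs_mul, Nat.abs_cast, Nat.abs_cast, Nat.abs_cast]
                apply mul_le_mul_of_nonneg_left _ (by positivity)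
                exact_mod_cast h
            · exact hmain V (by omega) (by omega)
    · rw [hval]
      exact_mod_cast g5
    · rw [hval]
      simpa using g7
  have hcY : (((Icc 1 X).filter (fun a : ℕ => (a : ℝ) ≤ Y)).card : ℝ) ≤ Y := by
    have h1 : ((Icc 1 X).filter (fun a : ℕ => (a : ℝ) ≤ Y)).card ≤ (Icc 1 ⌊Y⌋₊).card := by
      apply card_le_card
      intro a ha
      rw [mem_filter, mem_Icc] at ha
      rw [mem_Icc]
      exact ⟨ha.1.1, Nat.le_floor ha.2⟩
    rw [Nat.card_Icc, Nat.add_sub_cancel] at h1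
    calc (((Icc 1 X).filter (fun a : ℕ => (a : ℝ) ≤ Y)).card : ℝ) ≤ (⌊Y⌋₊ : ℝ) := by exact_mod_cast h1
      _ ≤ Y := Nat.floor_le hY0.le
  have hYL : Y * X ≤ (X : ℝ) ^ 2 / (4 * L ^ A) := by
    rw [le_div_iff₀ (by positivity)]
    calc Y * X * (4 * L ^ A) ≤ Y * X * (X : ℝ) ^ (η / 2) := mul_le_mul_of_nonneg_left f2 (by positivity)
      _ = (Y * (X : ℝ) ^ (η / 2)) * X := by ring
      _ = (X : ℝ) ^ 2 := by rw [hYX]; ring
  have c1 : (S1.card : ℝ) ≤ (X : ℝ) ^ 2 / (4 * L ^ A) := by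
    rw [hS1, card_product]
    push_cast
    have h1 : ((Icc 1 X).card : ℝ) = X := by simp
    rw [h1]
    exact (mul_le_mul_of_nonneg_right hcY hX0.le).trans hYL
  have c2 : (S2.card : ℝ) ≤ (X : ℝ) ^ 2 / (4 * L ^ A) := by
    rw [hS2, card_product]
    push_cast
    have h1 : ((Icc 1 X).card : ℝ) = X := by simp
    rw [h1, mul_comm]
    exact (mul_le_mul_of_nonneg_right hcY hX0.le).trans hYL
  have c3 : (S3.card : ℝ) ≤ (X : ℝ) ^ 2 / (4 * L ^ A) := by
    have h1 : S3.card ≤ ((box 2 X).filter (fun v => ∃ l ∈ 𝓛, 0 < val l.1 l.2 v ∧ ¬ P (val l.1 l.2 v).toNat)).card := by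
      apply card_le_card_of_injOn (fun z : ℕ × ℕ => (![z.1, z.2] : Fin 2 → ℕ))
      · rintro ⟨a, b⟩ hz
        rw [mem_coe, hS3, mem_filter, mem_product, mem_Icc, mem_Icc] at hz
        rw [mem_coe, mem_filter, mem_box]
        refine ⟨?_, hz.2⟩
        intro i
        fin_cases i
        · exact hz.1.1
        · exact hz.1.2
      · rintro ⟨a, b⟩ _ ⟨a', b'⟩ _ h
        have h2 := congrFun h 0
        have h3 := congrFun h 1
        simp only [Matrix.cons_val_zero, Matrix.cons_val_one] at h2 h3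
        rw [h2, h3]
    have h2 : (S3.card : ℝ) ≤ (X : ℝ) ^ 2 / L ^ (A + 1) := le_trans (by exact_mod_cast h1) hfam
    refine h2.trans ?_
    apply div_le_div_of_nonneg_left (by positivity) (by positivity)
    rw [pow_succ, mul_comm]
    exact mul_le_mul_of_nonneg_left (by linarith) (by positivity)
  have c4 : (B.card : ℝ) ≤ S1.card + S2.card + S3.card := by
    have := (card_le_card hsub).trans ((card_union_le _ _).trans (Nat.add_le_add_right (card_union_le _ _) _))
    exact_mod_cast this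
  have hfin : (X : ℝ) ^ 2 / (4 * L ^ A) = (X : ℝ) ^ 2 / L ^ A / 4 := by
    field_simp
  rw [hfin] at c1 c2 c3
  have h0 : 0 ≤ (X : ℝ) ^ 2 / L ^ A := by positivity
  linarith

end Run7.h469.LF
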