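import Pool.Agent.Run7.h469.LF.Lines

/-!
# The exceptional points of one form
-/

set_option autoImplicit false

namespace Run7.h469.LF

open Finset

variable {d : ℕ}

open Classical in
lemma bad_le (hd : d ≠ 0) (c u : Fin d → ℤ) (e : ℤ) (k : ℕ) (hk : 1 ≤ k) (hu : ∑ i, c i * u i = k) (i : Fin d)
    (hi : c i ≠ 0) (hmax : ∀ j, |c j| ≤ |c i|) (X H G R : ℕ) (he : |e| ≤ |c i| * X) (hH : 12 ≤ H) (hHX : H ≤ X)
    (hR : 1 ≤ R) (hRH : R ^ d * k ≤ H) (P : ℕ → Prop) (x B : ℝ) (hx : ((d : ℝ) + 1) * |(c i : ℝ)| * X ≤ x) (hB : 0 ≤ B)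
    (hP : ∀ q : ℕ, 1 ≤ q → (q : ℝ) ≤ d * |(c i : ℝ)| * H → ∀ a : ℤ, Int.gcd a q ≤ G →
      ({n : ℕ | 0 < n ∧ (n : ℝ) ≤ x ∧ (n : ℤ) ≡ a [ZMOD q] ∧ ¬ P n}).Finite ∧
      (({n : ℕ | 0 < n ∧ (n : ℝ) ≤ x ∧ (n : ℤ) ≡ a [ZMOD q] ∧ ¬ P n}.ncard : ℕ) : ℝ) ≤ B / q) :
    ∃ q : ℕ, 1 ≤ q ∧ |(c i : ℝ)| * H ≤ 8 * q ∧ (q : ℝ) ≤ d * |(c i : ℝ)| * H ∧
      (((box d X).filter (fun v => 0 < val c e v ∧ ¬ P (val c e v).toNat)).card : ℝ) ≤
        8 * (4 ^ d * k ^ 2 * X ^ d) / (G + 1) + q.divisors.card * (((X / R : ℕ) + 1) * X ^ (d - 1)) +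
        B / q * (d * (H * X ^ (d - 1))) := by
  obtain ⟨w, hw, hw1, hw2⟩ := exists_dir c u e k hk hu i hi X H G hH hHX
  have hci : 0 < |c i| := abs_pos.2 hi
  have hcH : 0 < |c i| * (H : ℤ) := Int.mul_pos hci (by exact_mod_cast (by omega : 0 < H))
  have hD : val c 0 w ≠ 0 := by
    intro h
    rw [h] at hw1
    simp only [abs_zero, mul_zero] at hw1
    omega
  obtain ⟨q, hq⟩ : ∃ q, q = (val c 0 w).natAbs := ⟨_, rfl⟩
  have hqz : (q : ℤ) = |val c 0 w| := by rw [hq, Int.natCast_natAbs]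
  have hq1 : 1 ≤ q := by
    rw [hq]
    exact Int.natAbs_pos.2 hD
  have hq8 : |(c i : ℝ)| * H ≤ 8 * q := by
    rw [← hqz] at hw1
    exact_mod_cast hw1
  have hqle : (q : ℝ) ≤ d * |(c i : ℝ)| * H := by
    have h1 : |val c 0 w| ≤ d * |c i| * H := by
      unfold val
      rw [add_zero]
      calc |∑ j, c j * (w j : ℤ)| ≤ ∑ j, |c j * (w j : ℤ)| := abs_sum_le_sum_abs _ _
        _ ≤ ∑ _j : Fin d, |c i| * (H : ℤ) := by
            apply sum_le_sum
            intro j _
            rw [abs_mul, Nat.abs_cast]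
            have h2 : ((w j : ℕ) : ℤ) ≤ H := by exact_mod_cast (mem_box.1 hw j).2
            exact mul_le_mul (hmax j) h2 (by positivity) hci.le
        _ = d * |c i| * H := by
            rw [sum_const, card_univ, Fintype.card_fin, nsmul_eq_mul]
            ring
    rw [← hqz] at h1
    exact_mod_cast h1
  refine ⟨q, hq1, hq8, hqle, ?_⟩
  set S := (box d X).filter (fun v => Int.gcd (val c e v) (val c 0 w) ≤ G ∧ 0 < val c e v ∧
    ¬ P (val c e v).toNat) with hS
  have hsub : (box d X).filter (fun v => 0 < val c e v ∧ ¬ P (val c e v).toNat) ⊆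
      (box d X).filter (fun v => G < Int.gcd (val c e v) (val c 0 w)) ∪ S := by
    intro v hv
    rw [mem_filter] at hv
    rw [mem_union, hS, mem_filter, mem_filter]
    by_cases h : G < Int.gcd (val c e v) (val c 0 w)
    · exact Or.inl ⟨hv.1, h⟩
    · exact Or.inr ⟨hv.1, not_lt.1 h, hv.2⟩
  have hScard : S.card ≤ ⌊B / q⌋₊ * (d * (H * X ^ (d - 1))) := by
    apply card_lines hd c e X H w hw hD S (filter_subset _ _)
    intro y hy
    rw [hS, mem_filter] at hy
    obtain ⟨hy1, hy2, hy3, hy4⟩ := hy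
    have hgcd : Int.gcd (val c e y) q ≤ G := by
      rw [hq]
      have : Int.gcd (val c e y) ((val c 0 w).natAbs : ℤ) = Int.gcd (val c e y) (val c 0 w) := by
        rw [Int.gcd_def, Int.gcd_def, Int.natAbs_natCast]
      rw [this]
      exact hy2
    obtain ⟨hfin, hcard⟩ := hP q hq1 hqle (val c e y) hgcd
    apply Nat.le_floor
    refine le_trans ?_ hcard
    rw [Set.ncard_eq_toFinset_card _ hfin]
    apply Nat.cast_le.2
    apply card_le_card_of_injOn Int.toNat
    · intro z hz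
      rw [mem_coe, mem_image] at hz
      obtain ⟨v, hv, rfl⟩ := hz
      rw [mem_filter, hS, mem_filter] at hv
      obtain ⟨⟨hv1, hv2, hv3, hv4⟩, hv5⟩ := hv
      rw [mem_coe, Set.Finite.mem_toFinset]
      refine ⟨by omega, ?_, ?_, hv4⟩
      · refine le_trans ?_ hx
        have h1 : val c e v ≤ ((d : ℤ) + 1) * |c i| * X := by
          unfold val
          have h2 : ∑ j, c j * (v j : ℤ) ≤ d * (|c i| * X) := by
            calc ∑ j, c j * (v j : ℤ) ≤ ∑ _j : Fin d, |c i| * (X : ℤ) := by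
                  apply sum_le_sum
                  intro j _
                  have h3 : ((v j : ℕ) : ℤ) ≤ X := by exact_mod_cast (mem_box.1 hv1 j).2
                  calc c j * (v j : ℤ) ≤ |c j| * (v j : ℤ) :=
                        mul_le_mul_of_nonneg_right (le_abs_self _) (by positivity)
                    _ ≤ |c i| * (X : ℤ) := mul_le_mul (hmax j) h3 (by positivity) hci.le
              _ = d * (|c i| * X) := by
                  rw [sum_const, card_univ, Fintype.card_fin, nsmul_eq_mul]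
          have h3 := le_abs_self e
          nlinarith
        have h2 : (((val c e v).toNat : ℤ)) ≤ ((d : ℤ) + 1) * |c i| * X := by
          rw [Int.toNat_of_nonneg hv3.le]
          exact h1
        exact_mod_cast h2
      · rw [Int.toNat_of_nonneg hv3.le, hq]
        exact hv5
    · intro z hz z' hz' hzz
      rw [mem_coe, mem_image] at hz hz'
      obtain ⟨v, hv, rfl⟩ := hz
      obtain ⟨v', hv', rfl⟩ := hz'
      rw [mem_filter, hS, mem_filter] at hv hv'
      have h1 := hv.1.2.2.1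
      have h2 := hv'.1.2.2.1
      omega
  have hgcdcard := card_gcd c u e k hk hu X H G R hR hRH w hD
  have h1 : ((box d X).filter (fun v => 0 < val c e v ∧ ¬ P (val c e v).toNat)).card ≤
      (Common c e X H G w).card + q.divisors.card * ((X / R + 1) * X ^ (d - 1)) +
      ⌊B / q⌋₊ * (d * (H * X ^ (d - 1))) := by
    refine (card_le_card hsub).trans ((card_union_le _ _).trans ?_)
    rw [← hq] at hgcdcard
    exact Nat.add_le_add hgcdcard hScard
  have h2 : (((box d X).filter (fun v => 0 < val c e v ∧ ¬ P (val c e v).toNat)).card : ℝ) ≤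
      (Common c e X H G w).card + q.divisors.card * (((X / R : ℕ) + 1) * X ^ (d - 1)) +
      (⌊B / q⌋₊ : ℝ) * (d * (H * X ^ (d - 1))) := by
    have := (Nat.cast_le (α := ℝ)).2 h1
    push_cast at this ⊢
    exact this
  have h3 : ((Common c e X H G w).card : ℝ) ≤ 8 * (4 ^ d * k ^ 2 * X ^ d) / (G + 1) := by
    rw [le_div_iff₀ (by positivity)]
    exact hw2
  have h4 : (⌊B / q⌋₊ : ℝ) ≤ B / q := Nat.floor_le (by positivity)
  have h5 : (⌊B / q⌋₊ : ℝ) * (d * (H * X ^ (d - 1))) ≤ B / q * (d * (H * X ^ (d - 1))) :=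
    mul_le_mul_of_nonneg_right h4 (by positivity)
  linarith

end Run7.h469.LF
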