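import Pool.Agent.Run7.h469.LF.Lat

/-!
# The choice of a direction
-/

set_option autoImplicit false

namespace Run7.h469.LF

open Finset

variable {d : ℕ}

open Classical in
/-- the points at which the form has a common divisor in `(G, H]` with its value on the direction `w` -/
noncomputable def Common (c : Fin d → ℤ) (e : ℤ) (X H G : ℕ) (w : Fin d → ℕ) : Finset (Fin d → ℕ) :=
  (box d X).filter (fun v => ∃ g : ℕ, G < g ∧ g ≤ H ∧ (g : ℤ) ∣ val c 0 w ∧ (g : ℤ) ∣ val c e v)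

lemma card_small_real (c u : Fin d → ℤ) (e : ℤ) (k : ℕ) (hk : 1 ≤ k) (hu : ∑ i, c i * u i = k) (X g : ℕ) (hg : 1 ≤ g)
    (hgX : g ≤ X) : (((box d X).filter (fun v => (g : ℤ) ∣ val c e v)).card : ℝ) ≤ k * (2 * X) ^ d / g := by
  have h := card_small c u e k hk hu X g hg hgX
  have hg0 : (0 : ℝ) < g := by exact_mod_cast hg
  rw [le_div_iff₀ hg0]
  exact_mod_cast h

lemma sum_common (c u : Fin d → ℤ) (e : ℤ) (k : ℕ) (hk : 1 ≤ k) (hu : ∑ i, c i * u i = k) (X H G : ℕ) (hHX : H ≤ X) :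
    ∑ w ∈ box d H, ((Common c e X H G w).card : ℝ) * (G + 1) ≤ 2 * (4 ^ d * k ^ 2 * H ^ d * X ^ d) := by
  classical
  have h1 : ∀ w ∈ box d H, ((Common c e X H G w).card : ℝ) ≤
      ∑ g ∈ Ioo G (H + 1), (if (g : ℤ) ∣ val c 0 w then (1 : ℝ) else 0) *
        (((box d X).filter (fun v => (g : ℤ) ∣ val c e v)).card : ℝ) := by
    intro w _
    have h2 : (Common c e X H G w).card ≤
        ∑ g ∈ (Ioo G (H + 1)).filter (fun g : ℕ => (g : ℤ) ∣ val c 0 w),
          ((box d X).filter (fun v => (g : ℤ) ∣ val c e v)).card := by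
      refine le_trans (card_le_card ?_) card_biUnion_le
      intro v hv
      unfold Common at hv
      rw [mem_filter] at hv
      obtain ⟨hv1, g, h3, h4, h5, h6⟩ := hv
      rw [mem_biUnion]
      refine ⟨g, ?_, ?_⟩
      · rw [mem_filter, mem_Ioo]
        exact ⟨⟨h3, by omega⟩, h5⟩
      · rw [mem_filter]
        exact ⟨hv1, h6⟩
    rw [sum_filter] at h2
    have h3 : ((Common c e X H G w).card : ℝ) ≤ ((∑ g ∈ Ioo G (H + 1), if (g : ℤ) ∣ val c 0 w then
        ((box d X).filter (fun v => (g : ℤ) ∣ val c e v)).card else 0 : ℕ) : ℝ) := by exact_mod_cast h2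
    refine h3.trans (le_of_eq ?_)
    rw [Nat.cast_sum]
    apply sum_congr rfl
    intro g _
    split_ifs <;> simp
  have hG0 : (0 : ℝ) < (G : ℝ) + 1 := by positivity
  have h2 : ∑ w ∈ box d H, ((Common c e X H G w).card : ℝ) ≤
      ∑ g ∈ Ioo G (H + 1), (4 ^ d * k ^ 2 * H ^ d * X ^ d) * (((g : ℝ) ^ 2)⁻¹) := by
    refine (sum_le_sum h1).trans ?_
    rw [sum_comm]
    apply sum_le_sum
    intro g hg
    rw [mem_Ioo] at hg
    have hg1 : 1 ≤ g := by omega
    have hg0 : (0 : ℝ) < g := by exact_mod_cast hg1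
    rw [← sum_mul]
    have h3 : ∑ w ∈ box d H, (if (g : ℤ) ∣ val c 0 w then (1 : ℝ) else 0) ≤ k * (2 * H) ^ d / g := by
      rw [← sum_filter, sum_const, nsmul_eq_mul, mul_one]
      exact card_small_real c u 0 k hk hu H g hg1 (by omega)
    have h4 := card_small_real c u e k hk hu X g hg1 (by omega)
    calc (∑ w ∈ box d H, (if (g : ℤ) ∣ val c 0 w then (1 : ℝ) else 0)) *
          (((box d X).filter (fun v => (g : ℤ) ∣ val c e v)).card : ℝ)
        ≤ (k * (2 * H) ^ d / g) * (k * (2 * X) ^ d / g) := by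
          apply mul_le_mul h3 h4 (by positivity) (by positivity)
      _ = (4 ^ d * k ^ 2 * H ^ d * X ^ d) * (((g : ℝ) ^ 2)⁻¹) := by
          have e4 : (4 : ℝ) ^ d = 2 ^ d * 2 ^ d := by rw [← mul_pow]; norm_num
          rw [e4, mul_pow, mul_pow]
          field_simp
  rw [← sum_mul]
  have h3 := sum_Ioo_inv_sq_le (α := ℝ) G (H + 1)
  rw [← mul_sum] at h2
  have hM : (0 : ℝ) ≤ 4 ^ d * k ^ 2 * H ^ d * X ^ d := by positivity
  calc (∑ w ∈ box d H, ((Common c e X H G w).card : ℝ)) * (G + 1)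
      ≤ ((4 ^ d * k ^ 2 * H ^ d * X ^ d) * ∑ g ∈ Ioo G (H + 1), ((g : ℝ) ^ 2)⁻¹) * (G + 1) :=
        mul_le_mul_of_nonneg_right h2 hG0.le
    _ ≤ ((4 ^ d * k ^ 2 * H ^ d * X ^ d) * (2 / (G + 1))) * (G + 1) := by
        apply mul_le_mul_of_nonneg_right _ hG0.le
        exact mul_le_mul_of_nonneg_left h3 hM
    _ = 2 * (4 ^ d * k ^ 2 * H ^ d * X ^ d) := by field_simp

/-- There is a good direction. -/
lemma exists_dir (c u : Fin d → ℤ) (e : ℤ) (k : ℕ) (hk : 1 ≤ k) (hu : ∑ i, c i * u i = k) (i : Fin d) (hi : c i ≠ 0)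
    (X H G : ℕ) (hH : 12 ≤ H) (hHX : H ≤ X) :
    ∃ w ∈ box d H, |c i| * H ≤ 8 * |val c 0 w| ∧
      ((Common c e X H G w).card : ℝ) * (G + 1) ≤ 8 * (4 ^ d * k ^ 2 * X ^ d) := by
  classical
  by_contra hcon
  push Not at hcon
  have hd : d ≠ 0 := by
    intro h
    subst h
    exact i.elim0
  set D := (box d H).filter (fun w => 8 * |val c 0 w| < |c i| * H) with hD
  set E := (box d H).filter (fun w => 8 * (4 ^ d * (k : ℝ) ^ 2 * X ^ d) < ((Common c e X H G w).card : ℝ) * (G + 1))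
    with hE
  have h1 : (box d H).card ≤ D.card + E.card := by
    refine le_trans (card_le_card ?_) (card_union_le D E)
    intro w hw
    rw [mem_union, hD, hE, mem_filter, mem_filter]
    by_cases h : 8 * |val c 0 w| < |c i| * H
    · exact Or.inl ⟨hw, h⟩
    · exact Or.inr ⟨hw, hcon w hw (not_lt.1 h)⟩
  rw [card_box] at h1
  have h2 := card_degenerate c i hi H
  rw [← hD] at h2
  have hH0 : (0 : ℝ) < H := by exact_mod_cast (by omega : 0 < H)
  have hH12 : (12 : ℝ) ≤ H := by exact_mod_cast hH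
  have hX0 : (0 : ℝ) < X := by exact_mod_cast (by omega : 0 < X)
  have hk0 : (0 : ℝ) < k := by exact_mod_cast hk
  have hpow : (H : ℝ) ^ d = H * H ^ (d - 1) := by
    conv_lhs => rw [show d = (d - 1) + 1 by omega, pow_succ]
    ring
  have h3 : (D.card : ℝ) ≤ H ^ d / 3 := by
    have h4 : (D.card : ℝ) ≤ (((H / 4 : ℕ) : ℝ) + 1) * H ^ (d - 1) := by exact_mod_cast h2
    have h5 : ((H / 4 : ℕ) : ℝ) ≤ (H : ℝ) / 4 := by
      have := @Nat.cast_div_le ℝ _ _ _ H 4
      simpa using this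
    have h6 : (((H / 4 : ℕ) : ℝ) + 1) ≤ (H : ℝ) / 3 := by linarith
    calc (D.card : ℝ) ≤ (((H / 4 : ℕ) : ℝ) + 1) * H ^ (d - 1) := h4
      _ ≤ (H : ℝ) / 3 * H ^ (d - 1) := mul_le_mul_of_nonneg_right h6 (by positivity)
      _ = H ^ d / 3 := by rw [hpow]; ring
  have h7 : (E.card : ℝ) ≤ H ^ d / 4 := by
    have h8 := sum_common c u e k hk hu X H G hHX
    have h9 : (E.card : ℝ) * (8 * (4 ^ d * (k : ℝ) ^ 2 * X ^ d)) ≤
        ∑ w ∈ box d H, ((Common c e X H G w).card : ℝ) * (G + 1) := by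
      calc (E.card : ℝ) * (8 * (4 ^ d * (k : ℝ) ^ 2 * X ^ d)) = ∑ _w ∈ E, (8 * (4 ^ d * (k : ℝ) ^ 2 * X ^ d)) := by
            rw [sum_const, nsmul_eq_mul]
        _ ≤ ∑ w ∈ E, ((Common c e X H G w).card : ℝ) * (G + 1) := by
            apply sum_le_sum
            intro w hw
            rw [hE, mem_filter] at hw
            exact hw.2.le
        _ ≤ _ := by
            apply sum_le_sum_of_subset_of_nonneg (filter_subset _ _)
            intro w _ _
            positivity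
    have h10 : (0 : ℝ) < 4 ^ d * (k : ℝ) ^ 2 * X ^ d := by positivity
    have h11 : (E.card : ℝ) * 8 * (4 ^ d * (k : ℝ) ^ 2 * X ^ d) ≤ (2 * H ^ d) * (4 ^ d * (k : ℝ) ^ 2 * X ^ d) := by
      calc (E.card : ℝ) * 8 * (4 ^ d * (k : ℝ) ^ 2 * X ^ d) = (E.card : ℝ) * (8 * (4 ^ d * (k : ℝ) ^ 2 * X ^ d)) := by
            ring
        _ ≤ _ := h9.trans h8
        _ = _ := by ring
    have h12 := le_of_mul_le_mul_right h11 h10
    linarith
  have h13 : ((H ^ d : ℕ) : ℝ) ≤ D.card + E.card := by exact_mod_cast h1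
  push_cast at h13
  have h14 : (0 : ℝ) < (H : ℝ) ^ d := by positivity
  linarith

open Classical in
/-- For a good direction the values have small common divisors with the modulus, with few exceptions. -/
lemma card_gcd (c u : Fin d → ℤ) (e : ℤ) (k : ℕ) (hk : 1 ≤ k) (hu : ∑ i, c i * u i = k) (X H G R : ℕ) (hR : 1 ≤ R)
    (hRH : R ^ d * k ≤ H) (w : Fin d → ℕ) (hw : val c 0 w ≠ 0) :
    ((box d X).filter (fun v => G < Int.gcd (val c e v) (val c 0 w))).card ≤
      (Common c e X H G w).card + (val c 0 w).natAbs.divisors.card * ((X / R + 1) * X ^ (d - 1)) := by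
  have h1 : (box d X).filter (fun v => G < Int.gcd (val c e v) (val c 0 w)) ⊆
      Common c e X H G w ∪ ((val c 0 w).natAbs.divisors.filter (fun g => H < g)).biUnion
        (fun g => (box d X).filter (fun v => (g : ℤ) ∣ val c e v)) := by
    intro v hv
    rw [mem_filter] at hv
    obtain ⟨hv1, hv2⟩ := hv
    rw [mem_union]
    by_cases h : Int.gcd (val c e v) (val c 0 w) ≤ H
    · left
      unfold Common
      rw [mem_filter]
      exact ⟨hv1, _, hv2, h, Int.gcd_dvd_right _ _, Int.gcd_dvd_left _ _⟩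
    · right
      rw [mem_biUnion]
      refine ⟨Int.gcd (val c e v) (val c 0 w), ?_, ?_⟩
      · rw [mem_filter, Nat.mem_divisors]
        refine ⟨⟨?_, ?_⟩, not_le.1 h⟩
        · exact Int.natCast_dvd.1 (Int.gcd_dvd_right _ _)
        · exact Int.natAbs_ne_zero.2 hw
      · rw [mem_filter]
        exact ⟨hv1, Int.gcd_dvd_left _ _⟩
  refine (card_le_card h1).trans ((card_union_le _ _).trans (Nat.add_le_add_left ?_ _))
  refine card_biUnion_le.trans ?_
  calc _ ≤ ∑ _g ∈ (val c 0 w).natAbs.divisors.filter (fun g => H < g), (X / R + 1) * X ^ (d - 1) := by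
        apply sum_le_sum
        intro g hg
        rw [mem_filter] at hg
        exact card_large c u e k hk hu X g R hR (lt_of_le_of_lt hRH hg.2)
    _ = ((val c 0 w).natAbs.divisors.filter (fun g => H < g)).card * ((X / R + 1) * X ^ (d - 1)) := by
        rw [sum_const, smul_eq_mul]
    _ ≤ _ := Nat.mul_le_mul_right _ (card_le_card (filter_subset _ _))

end Run7.h469.LF
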