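import Mathlib

/-!
# Values of linear forms: counting solutions of one congruence in a box
-/

set_option autoImplicit false

namespace Run7.h469.LF

open Finset

variable {d : ℕ}

/-- the box `[1, X]^d` -/
def box (d X : ℕ) : Finset (Fin d → ℕ) := Fintype.piFinset (fun _ => Icc 1 X)

/-- the value of the affine form with coefficients `c` and constant term `e` -/
def val (c : Fin d → ℤ) (e : ℤ) (v : Fin d → ℕ) : ℤ := ∑ i, c i * (v i : ℤ) + e

lemma card_box (d X : ℕ) : (box d X).card = X ^ d := by
  unfold box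
  rw [Fintype.card_piFinset]
  simp

lemma mem_box {X : ℕ} {v : Fin d → ℕ} : v ∈ box d X ↔ ∀ i, 1 ≤ v i ∧ v i ≤ X := by
  unfold box
  rw [Fintype.mem_piFinset]
  simp only [mem_Icc]

/-- all solutions of a congruence modulo a small `g` -/
lemma card_small (c u : Fin d → ℤ) (e : ℤ) (k : ℕ) (hk : 1 ≤ k) (hu : ∑ i, c i * u i = k) (X g : ℕ) (hg : 1 ≤ g)
    (hgX : g ≤ X) : ((box d X).filter (fun v => (g : ℤ) ∣ val c e v)).card * g ≤ k * (2 * X) ^ d := by
  classical
  have hg0 : (0 : ℤ) < g := by exact_mod_cast hg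
  set S := (box d X).filter (fun v => (g : ℤ) ∣ val c e v) with hS
  have hw0 : ∀ (t : ℕ) (i : Fin d), 0 ≤ ((t : ℤ) * u i) % g := fun t i => Int.emod_nonneg _ hg0.ne'
  have hw1 : ∀ (t : ℕ) (i : Fin d), ((t : ℤ) * u i) % g < g := fun t i => Int.emod_lt_of_pos _ hg0
  -- the value of the form at the shifted point
  have hval : ∀ (v : Fin d → ℕ) (t : ℕ), (g : ℤ) ∣ val c e v →
      (g : ℤ) ∣ val c e (fun i => v i + (((t : ℤ) * u i) % g).toNat) - t * k := by
    intro v t hv
    have h1 : val c e (fun i => v i + (((t : ℤ) * u i) % g).toNat) - t * k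
        = val c e v - ∑ i, c i * ((t : ℤ) * u i - ((t : ℤ) * u i) % g) := by
      unfold val
      rw [← hu, mul_sum]
      have h2 : ∀ i, c i * (((v i + (((t : ℤ) * u i) % g).toNat : ℕ)) : ℤ) =
          c i * (v i : ℤ) + c i * (((t : ℤ) * u i) % g) := by
        intro i
        push_cast
        rw [Int.toNat_of_nonneg (hw0 t i)]
        ring
      rw [sum_congr rfl (fun i _ => h2 i), sum_add_distrib]
      have h3 : ∑ i, c i * ((t : ℤ) * u i - ((t : ℤ) * u i) % g) =
          ∑ i, (t : ℤ) * (c i * u i) - ∑ i, c i * (((t : ℤ) * u i) % g) := by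
        rw [← sum_sub_distrib]
        exact sum_congr rfl (fun i _ => by ring)
      rw [h3]
      ring
    rw [h1]
    apply dvd_sub hv
    apply dvd_sum
    intro i _
    exact Dvd.dvd.mul_left (Int.dvd_self_sub_emod) _
  have h1 : (S ×ˢ range g).card ≤ k * (box d (2 * X)).card := by
    apply card_le_mul_card_image_of_maps_to
      (f := fun z : (Fin d → ℕ) × ℕ => (fun i => z.1 i + (((z.2 : ℤ) * u i) % g).toNat))
    · rintro ⟨v, t⟩ hz
      rw [mem_product] at hz
      obtain ⟨hv, -⟩ := hz
      rw [hS, mem_filter, mem_box] at hv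
      rw [mem_box]
      intro i
      have h2 := hv.1 i
      have h3 : (((t : ℤ) * u i) % g).toNat < g := by
        have := hw1 t i
        have := hw0 t i
        omega
      show 1 ≤ v i + (((t : ℤ) * u i) % g).toNat ∧ v i + (((t : ℤ) * u i) % g).toNat ≤ 2 * X
      have h2' : 1 ≤ v i ∧ v i ≤ X := h2
      generalize (((t : ℤ) * u i) % g).toNat = z at h3 ⊢
      omega
    · intro y _
      have h2 : (range k).card = k := card_range k
      conv_rhs => rw [← h2]
      apply card_le_card_of_injOn (fun z : (Fin d → ℕ) × ℕ => z.2 * k / g)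
      · rintro ⟨v, t⟩ hz
        rw [coe_filter] at hz
        obtain ⟨hz1, -⟩ := hz
        rw [mem_product, mem_range] at hz1
        rw [coe_range, Set.mem_Iio]
        simp only
        rw [Nat.div_lt_iff_lt_mul hg]
        rw [mul_comm k g]
        exact Nat.mul_lt_mul_of_pos_right hz1.2 hk
      · rintro ⟨v, t⟩ hz ⟨v', t'⟩ hz' htt
        rw [coe_filter] at hz hz'
        obtain ⟨hz1, hz2⟩ := hz
        obtain ⟨hz3, hz4⟩ := hz'
        rw [mem_product, hS, mem_filter] at hz1 hz3
        simp only at hz2 hz4 htt hz1 hz3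
        have h3 := hval v t hz1.1.2
        have h4 := hval v' t' hz3.1.2
        rw [hz2] at h3
        rw [hz4] at h4
        have h5 : (g : ℤ) ∣ ((t * k : ℕ) : ℤ) - ((t' * k : ℕ) : ℤ) := by
          have := dvd_sub h4 h3
          push_cast
          have e1 : (t : ℤ) * k - t' * k = (val c e y - t' * k) - (val c e y - t * k) := by ring
          rw [e1]
          exact this
        have h6 : t' * k ≡ t * k [MOD g] := by
          rw [Nat.modEq_iff_dvd]
          exact h5
        have h7 : t * k = t' * k := by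
          have e1 := Nat.div_add_mod (t * k) g
          have e2 := Nat.div_add_mod (t' * k) g
          have e3 : t' * k % g = t * k % g := h6
          rw [← e1, ← e2, htt, e3]
        have h8 : t = t' := Nat.eq_of_mul_eq_mul_right hk h7
        subst h8
        have h9 : v = v' := by
          funext i
          have e1 := congrFun hz2 i
          have e2 := congrFun hz4 i
          omega
        rw [h9]
  rw [card_product, card_range, card_box] at h1
  exact h1

/-- the points of the box with one coordinate equal to `1` -/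
lemma card_slice (X : ℕ) (i : Fin d) :
    (Fintype.piFinset (fun j : Fin d => if j = i then ({1} : Finset ℕ) else Icc 1 X)).card = X ^ (d - 1) := by
  rw [Fintype.card_piFinset]
  rw [← mul_prod_erase univ _ (mem_univ i)]
  rw [if_pos rfl, card_singleton, one_mul]
  rw [prod_congr rfl (fun j hj => by rw [if_neg (ne_of_mem_erase hj)])]
  rw [prod_const, card_erase_of_mem (mem_univ i), card_univ, Fintype.card_fin]
  simp

/-- Counting along one coordinate. -/
lemma card_fiber (X : ℕ) (i : Fin d) (S : Finset (Fin d → ℕ)) (hS : S ⊆ box d X) (M : ℕ)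
    (h : ∀ y : Fin d → ℕ, (S.filter (fun v => Function.update v i 1 = y)).card ≤ M) :
    S.card ≤ M * X ^ (d - 1) := by
  classical
  rw [← card_slice X i]
  apply card_le_mul_card_image_of_maps_to (f := fun v : Fin d → ℕ => Function.update v i 1)
  · intro v hv
    rw [Fintype.mem_piFinset]
    intro j
    have h1 := mem_box.1 (hS hv) j
    by_cases hj : j = i
    · subst hj
      rw [if_pos rfl, Function.update_self, mem_singleton]
    · rw [if_neg hj, Function.update_of_ne hj, mem_Icc]
      exact h1
  · intro y _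
    exact h y

lemma eq_of_update {i : Fin d} {v v' : Fin d → ℕ} (h : Function.update v i 1 = Function.update v' i 1)
    (hi : v i = v' i) : v = v' := by
  funext j
  by_cases hj : j = i
  · rw [hj, hi]
  · have := congrFun h j
    rw [Function.update_of_ne hj, Function.update_of_ne hj] at this
    exact this

lemma val_sub_of_update (c : Fin d → ℤ) (e : ℤ) {i : Fin d} {v v' : Fin d → ℕ}
    (h : Function.update v i 1 = Function.update v' i 1) :
    val c e v - val c e v' = c i * ((v i : ℤ) - v' i) := by
  unfold val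
  have h1 : ∀ j ∈ (univ : Finset (Fin d)), j ≠ i → c j * ((v j : ℤ)) - c j * ((v' j : ℤ)) = 0 := by
    intro j _ hj
    have := congrFun h j
    rw [Function.update_of_ne hj, Function.update_of_ne hj] at this
    rw [this]
    ring
  have h2 : ∑ j, (c j * ((v j : ℤ)) - c j * ((v' j : ℤ))) = c i * (v i : ℤ) - c i * (v' i : ℤ) := by
    rw [sum_eq_single i (fun j hj hji => h1 j hj hji) (fun hi => absurd (mem_univ i) hi)]
  rw [sum_sub_distrib] at h2
  linarith

/-- all solutions of a congruence modulo a large `g` -/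
lemma card_large (c u : Fin d → ℤ) (e : ℤ) (k : ℕ) (hk : 1 ≤ k) (hu : ∑ i, c i * u i = k) (X g R : ℕ)
    (hR : 1 ≤ R) (hg : R ^ d * k < g) :
    ((box d X).filter (fun v => (g : ℤ) ∣ val c e v)).card ≤ (X / R + 1) * X ^ (d - 1) := by
  classical
  have hg1 : 0 < g := by omega
  -- a coordinate of large order
  obtain ⟨i, hi⟩ : ∃ i : Fin d, R < g / Nat.gcd (c i).natAbs g := by
    by_contra hcon
    push Not at hcon
    have h1 : ∀ i, (g : ℤ) ∣ ((∏ j, (g / Nat.gcd (c j).natAbs g) : ℕ) : ℤ) * c i := by
      intro i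
      have h2 : (g : ℤ) ∣ ((g / Nat.gcd (c i).natAbs g : ℕ) : ℤ) * c i := by
        have h3 : g ∣ (g / Nat.gcd (c i).natAbs g) * (c i).natAbs := by
          obtain ⟨b, hb⟩ := Nat.gcd_dvd_left (c i).natAbs g
          have e1 : (g / Nat.gcd (c i).natAbs g) * (c i).natAbs
              = (g / Nat.gcd (c i).natAbs g * Nat.gcd (c i).natAbs g) * b := by
            conv_lhs => rw [hb]
            have e0 : Nat.gcd (Nat.gcd (c i).natAbs g * b) g = Nat.gcd (c i).natAbs g := by
              rw [← hb]
            rw [e0]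
            ring
          rw [e1, Nat.div_mul_cancel (Nat.gcd_dvd_right _ _)]
          exact dvd_mul_right g b
        have h4 : (g : ℤ) ∣ ((g / Nat.gcd (c i).natAbs g * (c i).natAbs : ℕ) : ℤ) := Int.natCast_dvd_natCast.2 h3
        rw [Nat.cast_mul, Int.natCast_natAbs] at h4
        have h5 : ((g / Nat.gcd (c i).natAbs g : ℕ) : ℤ) * |c i| =
            |((g / Nat.gcd (c i).natAbs g : ℕ) : ℤ) * c i| := by rw [abs_mul, Nat.abs_cast]
        rw [h5] at h4
        exact (dvd_abs _ _).1 h4
      rw [← mul_prod_erase univ _ (mem_univ i), Nat.cast_mul]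
      have e2 : (((g / Nat.gcd (c i).natAbs g : ℕ) : ℤ) *
          ((∏ j ∈ univ.erase i, (g / Nat.gcd (c j).natAbs g) : ℕ) : ℤ)) * c i =
          (((g / Nat.gcd (c i).natAbs g : ℕ) : ℤ) * c i) *
          ((∏ j ∈ univ.erase i, (g / Nat.gcd (c j).natAbs g) : ℕ) : ℤ) := by ring
      rw [e2]
      exact Dvd.dvd.mul_right h2 _
    have h5 : (g : ℤ) ∣ ((∏ j, (g / Nat.gcd (c j).natAbs g) : ℕ) : ℤ) * k := by
      rw [← hu, mul_sum]
      apply dvd_sum
      intro i _
      rw [← mul_assoc]
      exact Dvd.dvd.mul_right (h1 i) _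
    have h6 : g ∣ (∏ j, (g / Nat.gcd (c j).natAbs g)) * k := by exact_mod_cast h5
    have h7 : 0 < (∏ j, (g / Nat.gcd (c j).natAbs g)) * k := by
      apply Nat.mul_pos _ hk
      apply prod_pos
      intro j _
      exact Nat.div_pos (Nat.le_of_dvd hg1 (Nat.gcd_dvd_right _ _)) (Nat.gcd_pos_of_pos_right _ hg1)
    have h8 := Nat.le_of_dvd h7 h6
    have h9 : (∏ j, (g / Nat.gcd (c j).natAbs g)) ≤ R ^ d := by
      calc (∏ j, (g / Nat.gcd (c j).natAbs g)) ≤ ∏ _j : Fin d, R := prod_le_prod' (fun j _ => hcon j)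
        _ = R ^ d := by simp
    have h10 := Nat.mul_le_mul_right k h9
    omega
  obtain ⟨o, ho⟩ : ∃ o, o = g / Nat.gcd (c i).natAbs g := ⟨_, rfl⟩
  rw [← ho] at hi
  have hgo : g = o * Nat.gcd (c i).natAbs g := by
    rw [ho, Nat.div_mul_cancel (Nat.gcd_dvd_right _ _)]
  have hgcd0 : 0 < Nat.gcd (c i).natAbs g := Nat.gcd_pos_of_pos_right _ hg1
  apply card_fiber X i _ (filter_subset _ _)
  intro y
  have h2 : (range (X / R + 1)).card = X / R + 1 := card_range _
  conv_rhs => rw [← h2]
  apply card_le_card_of_injOn (fun v : Fin d → ℕ => v i / o)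
  · intro v hv
    rw [coe_filter] at hv
    obtain ⟨hv1, -⟩ := hv
    rw [mem_filter, mem_box] at hv1
    rw [coe_range, Set.mem_Iio]
    have h3 : v i / o ≤ X / R := by
      calc v i / o ≤ X / o := Nat.div_le_div_right (hv1.1 i).2
        _ ≤ X / R := Nat.div_le_div_left hi.le hR
    simp only
    omega
  · intro v hv v' hv' hvv
    rw [coe_filter] at hv hv'
    obtain ⟨hv1, hv2⟩ := hv
    obtain ⟨hv3, hv4⟩ := hv'
    rw [mem_filter] at hv1 hv3
    have hup : Function.update v i 1 = Function.update v' i 1 := by rw [hv2, hv4]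
    apply eq_of_update hup
    have h3 := dvd_sub hv1.2 hv3.2
    rw [val_sub_of_update c e hup] at h3
    -- `o` divides the difference
    have h4 : (o : ℤ) ∣ (v i : ℤ) - v' i := by
      have h5 : g ∣ (c i).natAbs * ((v i : ℤ) - v' i).natAbs := by
        have := Int.natAbs_dvd_natAbs.2 h3
        rw [Int.natAbs_mul] at this
        simpa using this
      have h6 : o ∣ ((v i : ℤ) - v' i).natAbs := by
        obtain ⟨b, hb⟩ := Nat.gcd_dvd_left (c i).natAbs g
        have hcop : Nat.Coprime o b := by
          have e1 : Nat.gcd (c i).natAbs g = Nat.gcd (Nat.gcd (c i).natAbs g * b) (o * Nat.gcd (c i).natAbs g) := by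
            rw [← hb, ← hgo]
          rw [mul_comm o, Nat.gcd_mul_left] at e1
          have e2 : Nat.gcd (c i).natAbs g * 1 = Nat.gcd (c i).natAbs g * Nat.gcd b o := by
            rw [mul_one]
            exact e1
          have e3 := Nat.eq_of_mul_eq_mul_left hgcd0 e2
          rw [Nat.Coprime, Nat.gcd_comm]
          exact e3.symm
        have h7 : o * Nat.gcd (c i).natAbs g ∣ (Nat.gcd (c i).natAbs g * b) * ((v i : ℤ) - v' i).natAbs := by
          rw [← hgo, ← hb]
          exact h5
        have h8 : Nat.gcd (c i).natAbs g * o ∣ Nat.gcd (c i).natAbs g * (b * ((v i : ℤ) - v' i).natAbs) := by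
          rw [mul_comm _ o, ← mul_assoc]
          exact h7
        have h9 := Nat.dvd_of_mul_dvd_mul_left hgcd0 h8
        exact hcop.dvd_of_dvd_mul_left h9
      exact Int.natCast_dvd.2 h6
    have h5 : v' i ≡ v i [MOD o] := by
      rw [Nat.modEq_iff_dvd]
      exact h4
    simp only at hvv
    have e1 := Nat.div_add_mod (v i) o
    have e2 := Nat.div_add_mod (v' i) o
    have e3 : v' i % o = v i % o := h5
    rw [← e1, ← e2, hvv, e3]

/-- The vectors for which the value of the form is small. -/
lemma card_degenerate (c : Fin d → ℤ) (i : Fin d) (hc : c i ≠ 0) (H : ℕ) :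
    ((box d H).filter (fun w => 8 * |val c 0 w| < |c i| * H)).card ≤ (H / 4 + 1) * H ^ (d - 1) := by
  classical
  apply card_fiber H i _ (filter_subset _ _)
  intro y
  set T := ((box d H).filter (fun w => 8 * |val c 0 w| < |c i| * H)).filter (fun v => Function.update v i 1 = y)
    with hT
  rcases T.eq_empty_or_nonempty with h0 | h0
  · rw [h0]; simp
  obtain ⟨w₀, hw₀, hmin⟩ := exists_min_image T (fun w => w i) h0
  have h2 : (range (H / 4 + 1)).card = H / 4 + 1 := card_range _
  conv_rhs => rw [← h2]
  apply card_le_card_of_injOn (fun v : Fin d → ℕ => v i - w₀ i)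
  · intro v hv
    have hv' : v ∈ T := hv
    have h3 := hmin v hv'
    rw [hT, mem_filter, mem_filter] at hv' hw₀
    have hup : Function.update v i 1 = Function.update w₀ i 1 := by rw [hv'.2, hw₀.2]
    have h4 := val_sub_of_update c 0 hup
    have h5 := hv'.1.2
    have h6 := hw₀.1.2
    have hci : 0 < |c i| := abs_pos.2 hc
    have h7 : |c i| * ((v i : ℤ) - w₀ i) ≤ |val c 0 v| + |val c 0 w₀| := by
      calc |c i| * ((v i : ℤ) - w₀ i) ≤ |c i| * |(v i : ℤ) - w₀ i| :=
            mul_le_mul_of_nonneg_left (le_abs_self _) hci.le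
        _ = |val c 0 v - val c 0 w₀| := by rw [h4, abs_mul]
        _ ≤ |val c 0 v| + |val c 0 w₀| := abs_sub _ _
    have h8 : |c i| * (4 * ((v i : ℤ) - w₀ i)) < |c i| * H := by
      have e1 : |c i| * (4 * ((v i : ℤ) - w₀ i)) = 4 * (|c i| * ((v i : ℤ) - w₀ i)) := by ring
      rw [e1]
      linarith
    have h9 := lt_of_mul_lt_mul_left h8 hci.le
    rw [coe_range, Set.mem_Iio]
    simp only
    omega
  · intro v hv v' hv' hvv
    have hv1 : v ∈ T := hv
    have hv2 : v' ∈ T := hv'
    have h3 := hmin v hv1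
    have h4 := hmin v' hv2
    rw [hT, mem_filter] at hv1 hv2
    have hup : Function.update v i 1 = Function.update v' i 1 := by rw [hv1.2, hv2.2]
    apply eq_of_update hup
    simp only at hvv h3 h4
    omega

end Run7.h469.LF
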