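import Pool.Agent.Run7.h469.LF.Dir

/-!
# Counting along the lines in a given direction
-/

set_option autoImplicit false

namespace Run7.h469.LF

open Finset

variable {d : ℕ}

/-- the number of the steps from the first point of the line to `v` -/
def steps (X : ℕ) (w v : Fin d → ℕ) : ℕ := Nat.findGreatest (fun t => ∀ i, t * w i < v i) X

/-- the first point of the line through `v` -/
def first (X : ℕ) (w v : Fin d → ℕ) (i : Fin d) : ℕ := v i - steps X w v * w i

lemma steps_spec {X : ℕ} {w v : Fin d → ℕ} (hv : v ∈ box d X) : ∀ i, steps X w v * w i < v i := by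
  have h := @Nat.findGreatest_spec 0 (fun t => ∀ i, t * w i < v i) _ X (Nat.zero_le _)
    (fun i => by have := (mem_box.1 hv i).1; omega)
  exact h

lemma first_add {X : ℕ} {w v : Fin d → ℕ} (hv : v ∈ box d X) (i : Fin d) :
    v i = first X w v i + steps X w v * w i := by
  have := steps_spec (w := w) hv i
  unfold first
  omega

lemma val_first (c : Fin d → ℤ) (e : ℤ) {X : ℕ} {w v : Fin d → ℕ} (hv : v ∈ box d X) :
    val c e v = val c e (first X w v) + steps X w v * val c 0 w := by
  unfold val
  rw [sum_congr rfl (fun i _ => by rw [first_add (w := w) hv i])]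
  push_cast
  rw [mul_add, mul_sum]
  have h : ∀ i, c i * ((first X w v i : ℤ) + steps X w v * w i) =
      c i * (first X w v i : ℤ) + (steps X w v : ℤ) * (c i * w i) := fun i => by ring
  rw [sum_congr rfl (fun i _ => h i), sum_add_distrib]
  ring

lemma first_mem (hd : d ≠ 0) {X H : ℕ} {w v : Fin d → ℕ} (hw : w ∈ box d H) (hv : v ∈ box d X) :
    first X w v ∈ box d X ∧ ∃ i, first X w v i ≤ w i := by
  constructor
  · rw [mem_box]
    intro i
    have h1 := first_add (w := w) hv i
    have h2 := steps_spec (w := w) hv i
    have h3 := (mem_box.1 hv i).2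
    omega
  · by_contra hcon
    push Not at hcon
    have h1 : ∀ i, (steps X w v + 1) * w i < v i := by
      intro i
      have h2 := hcon i
      have h3 := first_add (w := w) hv i
      have h4 : (steps X w v + 1) * w i = steps X w v * w i + w i := by ring
      omega
    by_cases h2 : steps X w v + 1 ≤ X
    · have h3 : ¬ (∀ i, (steps X w v + 1) * w i < v i) :=
        Nat.findGreatest_is_greatest (P := fun t => ∀ i, t * w i < v i) (n := X) (Nat.lt_succ_self _) h2
      exact h3 h1
    · have i : Fin d := ⟨0, Nat.pos_of_ne_zero hd⟩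
      have h3 := h1 i
      have h4 := (mem_box.1 hv i).2
      have h5 := (mem_box.1 hw i).1
      have h6 : steps X w v + 1 ≤ (steps X w v + 1) * w i := Nat.le_mul_of_pos_right _ h5
      omega

lemma card_firsts {X H : ℕ} {w : Fin d → ℕ} (hw : w ∈ box d H) :
    ((box d X).filter (fun y => ∃ i, y i ≤ w i)).card ≤ d * (H * X ^ (d - 1)) := by
  classical
  have h1 : (box d X).filter (fun y => ∃ i, y i ≤ w i) ⊆
      (univ : Finset (Fin d)).biUnion (fun i => (box d X).filter (fun y => y i ≤ w i)) := by
    intro y hy
    rw [mem_filter] at hy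
    obtain ⟨h2, i, h3⟩ := hy
    rw [mem_biUnion]
    exact ⟨i, mem_univ i, mem_filter.2 ⟨h2, h3⟩⟩
  refine (card_le_card h1).trans (card_biUnion_le.trans ?_)
  calc ∑ i : Fin d, ((box d X).filter (fun y => y i ≤ w i)).card ≤ ∑ _i : Fin d, H * X ^ (d - 1) := by
        apply sum_le_sum
        intro i _
        apply card_fiber X i _ (filter_subset _ _)
        intro y
        have h2 : (Icc 1 H).card = H := by simp
        conv_rhs => rw [← h2]
        apply card_le_card_of_injOn (fun v : Fin d → ℕ => v i)
        · intro v hv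
          rw [coe_filter] at hv
          obtain ⟨hv1, -⟩ := hv
          rw [mem_filter, mem_box] at hv1
          rw [coe_Icc, Set.mem_Icc]
          exact ⟨(hv1.1 i).1, hv1.2.trans (mem_box.1 hw i).2⟩
        · intro v hv v' hv' hvv
          rw [coe_filter] at hv hv'
          apply eq_of_update (i := i) _ hvv
          rw [hv.2, hv'.2]
    _ = d * (H * X ^ (d - 1)) := by simp

/-- If every residue class of the value of the direction contains at most `M` values of the form on `S`, then `S` is
small. -/
lemma card_lines (hd : d ≠ 0) (c : Fin d → ℤ) (e : ℤ) (X H : ℕ) (w : Fin d → ℕ) (hw : w ∈ box d H)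
    (hD : val c 0 w ≠ 0) (S : Finset (Fin d → ℕ)) (hS : S ⊆ box d X) (M : ℕ)
    (hM : ∀ y ∈ S, ((S.filter (fun v => val c e v ≡ val c e y [ZMOD (val c 0 w).natAbs])).image
      (fun v => val c e v)).card ≤ M) : S.card ≤ M * (d * (H * X ^ (d - 1))) := by
  classical
  refine le_trans ?_ (Nat.mul_le_mul_left M (card_firsts (X := X) hw))
  apply card_le_mul_card_image_of_maps_to (f := fun v : Fin d → ℕ => first X w v)
  · intro v hv
    have h := first_mem hd hw (hS hv)
    rw [mem_filter]
    exact h
  · intro y₀ _
    rcases (S.filter (fun v => first X w v = y₀)).eq_empty_or_nonempty with h0 | ⟨y, hy⟩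
    · rw [h0]; simp
    refine le_trans ?_ (hM y (mem_filter.1 hy).1)
    have hinj : Set.InjOn (fun v => val c e v) (S.filter (fun v => first X w v = y₀) : Set (Fin d → ℕ)) := by
      intro v hv v' hv' hvv
      rw [coe_filter] at hv hv'
      obtain ⟨hv1, hv2⟩ := hv
      obtain ⟨hv3, hv4⟩ := hv'
      simp only at hvv
      rw [val_first c e (w := w) (hS hv1), val_first c e (w := w) (hS hv3), hv2, hv4] at hvv
      have h1 : (steps X w v : ℤ) * val c 0 w = steps X w v' * val c 0 w := by linarith
      have h2 := mul_right_cancel₀ hD h1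
      have h3 : steps X w v = steps X w v' := by exact_mod_cast h2
      funext i
      rw [first_add (w := w) (hS hv1) i, first_add (w := w) (hS hv3) i, h3, hv2, hv4]
    rw [← card_image_of_injOn hinj]
    apply card_le_card
    apply image_subset_image
    intro v hv
    rw [mem_filter] at hv hy ⊢
    refine ⟨hv.1, ?_⟩
    rw [val_first c e (w := w) (hS hv.1), val_first c e (w := w) (hS hy.1), hv.2, hy.2]
    rw [Int.modEq_iff_dvd]
    have h1 : val c e y₀ + (steps X w y : ℤ) * val c 0 w - (val c e y₀ + (steps X w v : ℤ) * val c 0 w) =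
        ((steps X w y : ℤ) - steps X w v) * val c 0 w := by ring
    rw [h1]
    apply Dvd.dvd.mul_left
    rw [Int.natCast_natAbs]
    exact (abs_dvd _ _).2 dvd_rfl

end Run7.h469.LF
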