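import Pool.Agent.Run7.h469.LF.Count
import Pool.Agent.Run7.h469.CT.Count
import Pool.Agent.H353R2.Z2

/-!
# Values of linear forms with large coefficients: the main theorem
-/

set_option autoImplicit false

namespace Run7.h469.LF

open Finset Filter

variable {d : ℕ}

/-- The greatest common divisor of the coefficients is at most `(log X)^U`, the coefficients are at most `X^τ` and the
constant term is at most `X` times the largest coefficient. -/
def Admissible (τ : ℝ) (U X : ℕ) (c : Fin d → ℤ) (e : ℤ) : Prop :=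
  (∃ u : Fin d → ℤ, 1 ≤ ∑ i, c i * u i ∧ ((∑ i, c i * u i : ℤ) : ℝ) ≤ Real.log X ^ U) ∧
  ∃ i, (∀ j, |c j| ≤ |c i|) ∧ |(c i : ℝ)| ≤ (X : ℝ) ^ τ ∧ |e| ≤ |c i| * X

lemma ev_log (K : ℝ) (n : ℕ) (s : ℝ) (hs : 0 < s) : ∀ᶠ X : ℕ in atTop, K * Real.log X ^ n ≤ (X : ℝ) ^ s := by
  have h := isLittleO_log_rpow_rpow_atTop (n : ℝ) hs
  have h1 := h.bound (show (0 : ℝ) < 1 / (|K| + 1) by positivity)
  have h2 := tendsto_natCast_atTop_atTop (R := ℝ) |>.eventually h1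
  filter_upwards [h2, eventually_ge_atTop 1] with X h3 hX
  have hX1 : (1 : ℝ) ≤ X := by exact_mod_cast hX
  have hlog : 0 ≤ Real.log X := Real.log_nonneg hX1
  rw [Real.rpow_natCast, Real.norm_of_nonneg (by positivity), Real.norm_of_nonneg (by positivity)] at h3
  have h4 : 0 ≤ Real.log X ^ n := by positivity
  calc K * Real.log X ^ n ≤ |K| * Real.log X ^ n := mul_le_mul_of_nonneg_right (le_abs_self K) h4
    _ ≤ |K| * (1 / (|K| + 1) * (X : ℝ) ^ s) := mul_le_mul_of_nonneg_left h3 (abs_nonneg K)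
    _ = (|K| / (|K| + 1)) * (X : ℝ) ^ s := by ring
    _ ≤ 1 * (X : ℝ) ^ s := by
        apply mul_le_mul_of_nonneg_right _ (by positivity)
        rw [div_le_one (by positivity)]
        linarith
    _ = (X : ℝ) ^ s := one_mul _

open Classical in
theorem one_form (hd : d ≠ 0) (θ η : ℝ) (hθ0 : 0 < θ) (hθ1 : θ < 1) (hη0 : 0 < η) (P : ℕ → Prop)
    (hP : Run7.h469.CT.Few θ P) (A U : ℕ) : ∃ X₀ : ℕ, ∀ X : ℕ, X₀ ≤ X → ∀ (c : Fin d → ℤ) (e : ℤ),
      Admissible (θ / (1 - θ) - η) U X c e →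
      (((box d X).filter (fun v => 0 < val c e v ∧ ¬ P (val c e v).toNat)).card : ℝ) ≤
        (X : ℝ) ^ d / Real.log X ^ A := by
  have hdr : (0 : ℝ) < d := by exact_mod_cast Nat.pos_of_ne_zero hd
  have hd1 : (1 : ℝ) ≤ d := by exact_mod_cast Nat.pos_of_ne_zero hd
  have h1θ : 0 < 1 - θ := by linarith
  -- the parameters
  obtain ⟨η', hη'0, hη'1, hη'η⟩ : ∃ η' : ℝ, 0 < η' ∧ η' ≤ 1 ∧ η' ≤ η :=
    ⟨min η 1, lt_min hη0 one_pos, min_le_right _ _, min_le_left _ _⟩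
  obtain ⟨σ, hσ⟩ : ∃ σ, σ = η' * (1 - θ) / 4 := ⟨_, rfl⟩
  obtain ⟨ρ, hρ⟩ : ∃ ρ, ρ = η' * (1 - θ) ^ 2 * θ / 2 := ⟨_, rfl⟩
  have hσ0 : 0 < σ := by rw [hσ]; positivity
  have hσ1 : σ ≤ 1 := by rw [hσ]; nlinarith
  have hρ0 : 0 < ρ := by rw [hρ]; positivity
  have hρθ : ρ < θ := by
    have h1 : η' * (1 - θ) ^ 2 ≤ 1 := by
      have h2 : (1 - θ) ^ 2 ≤ 1 := by nlinarith
      nlinarith [sq_nonneg (1 - θ)]
    rw [hρ]
    nlinarith
  obtain ⟨τ, hτ⟩ : ∃ τ, τ = θ / (1 - θ) - η := ⟨_, rfl⟩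
  rw [← hτ]
  -- the inequality between the exponents
  have hexp : 2 * σ + τ * (1 - θ + ρ) ≤ θ - ρ := by
    have h1 : τ ≤ θ / (1 - θ) - η' := by rw [hτ]; linarith
    have h2 : 0 < 1 - θ + ρ := by linarith
    have h3 : τ * (1 - θ + ρ) ≤ (θ / (1 - θ) - η') * (1 - θ + ρ) := mul_le_mul_of_nonneg_right h1 h2.le
    have h4 : (θ / (1 - θ) - η') * (1 - θ + ρ) = θ - η' * (1 - θ) + ρ * (θ / (1 - θ)) - η' * ρ := by
      have : θ / (1 - θ) * (1 - θ) = θ := div_mul_cancel₀ _ h1θ.ne'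
      calc (θ / (1 - θ) - η') * (1 - θ + ρ) = θ / (1 - θ) * (1 - θ) - η' * (1 - θ) + ρ * (θ / (1 - θ)) - η' * ρ := by
            ring
        _ = _ := by rw [this]
    have h5 : ρ + ρ * (θ / (1 - θ)) = ρ / (1 - θ) := by field_simp; ring
    have h6 : ρ / (1 - θ) = η' * (1 - θ) * θ / 2 := by
      rw [hρ]
      field_simp
    have h7 : η' * (1 - θ) * θ / 2 ≤ η' * (1 - θ) / 2 := by
      have : 0 < η' * (1 - θ) := by positivity
      nlinarith
    have h8 : 2 * σ = η' * (1 - θ) / 2 := by rw [hσ]; ring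
    have h9 : 0 < η' * ρ := by positivity
    rw [h8]
    linarith
  obtain ⟨β, hβ⟩ : ∃ β, β = |τ| + 2 := ⟨_, rfl⟩
  have hβ0 : 0 < β := by rw [hβ]; positivity
  obtain ⟨C, hC0, hC⟩ := H353.divisor_bound_real (σ / (4 * d) / β) (by positivity)
  obtain ⟨T, hT⟩ : ∃ T, T = A + 1 + 2 * U := ⟨_, rfl⟩
  obtain ⟨x₀, hx₀⟩ := hP ρ hρ0 (A + 1) T
  have htend : Tendsto (fun X : ℕ => Real.log (X : ℝ)) atTop atTop :=
    Real.tendsto_log_atTop.comp tendsto_natCast_atTop_atTop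
  have hev : ∀ᶠ X : ℕ in atTop, x₀ ≤ (X : ℝ) ∧ 13 ≤ (X : ℝ) ^ σ ∧ Real.log X ^ U ≤ (X : ℝ) ^ (σ / 2) ∧
      (d : ℝ) ≤ (X : ℝ) ^ σ ∧ 12 * C * Real.log X ^ A ≤ (X : ℝ) ^ (σ / (4 * d)) ∧
      2 ≤ (X : ℝ) ^ (σ / (2 * d)) ∧ 32 * 4 ^ d ≤ Real.log X ∧ 32 * (d * (d + 1)) ≤ Real.log X ∧ 1 ≤ X := by
    filter_upwards [tendsto_natCast_atTop_atTop (R := ℝ) |>.eventually_ge_atTop x₀, ev_log 13 0 σ hσ0,
      ev_log 1 U (σ / 2) (by positivity), ev_log d 0 σ hσ0, ev_log (12 * C) A (σ / (4 * d)) (by positivity),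
      ev_log 2 0 (σ / (2 * d)) (by positivity), htend.eventually_ge_atTop (32 * 4 ^ d),
      htend.eventually_ge_atTop (32 * ((d : ℝ) * (d + 1))), eventually_ge_atTop 1] with X h1 h2 h3 h4 h5 h6 h7 h8 h9
    rw [pow_zero, mul_one] at h2 h4 h6
    rw [one_mul] at h3
    exact ⟨h1, h2, h3, h4, h5, h6, h7, h8, h9⟩
  obtain ⟨X₀, hX₀⟩ := eventually_atTop.1 hev
  refine ⟨X₀, fun X hX c e hadm => ?_⟩
  obtain ⟨f1, f2, f3, f4, f5, f6, f7, f8, f9⟩ := hX₀ X hX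
  obtain ⟨⟨u, hu1, hu2⟩, i, hmax, hci, he⟩ := hadm
  obtain ⟨L, hL⟩ : ∃ L, L = Real.log (X : ℝ) := ⟨_, rfl⟩
  rw [← hL] at f3 f5 f7 f8 hu2 ⊢
  have hX1 : (1 : ℝ) ≤ X := by exact_mod_cast f9
  have hX0 : (0 : ℝ) < X := by linarith
  have h4d : (1 : ℝ) ≤ 4 ^ d := one_le_pow₀ (by norm_num)
  have hL1 : 1 ≤ L := by linarith
  have hL0 : 0 < L := by linarith
  -- the numbers `k`, `R`, `H`, `G`
  obtain ⟨k, hk⟩ : ∃ k : ℕ, k = (∑ i, c i * u i).toNat := ⟨_, rfl⟩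
  have hkz : ∑ i, c i * u i = (k : ℤ) := by rw [hk, Int.toNat_of_nonneg (by omega)]
  have hk1 : 1 ≤ k := by omega
  have hkL : (k : ℝ) ≤ L ^ U := by
    have : ((∑ i, c i * u i : ℤ) : ℝ) = (k : ℝ) := by
      rw [hkz]
      simp
    rw [← this]
    exact hu2
  have hci0 : c i ≠ 0 := by
    intro h
    have h1 : ∀ j, c j = 0 := by
      intro j
      have := hmax j
      rw [h, abs_zero] at this
      exact abs_eq_zero.1 (le_antisymm this (abs_nonneg _))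
    have h2 : ∑ i, c i * u i = 0 := sum_eq_zero (fun j _ => by rw [h1 j, zero_mul])
    omega
  obtain ⟨m, hm⟩ : ∃ m : ℝ, m = |(c i : ℝ)| := ⟨_, rfl⟩
  have hm1 : 1 ≤ m := by
    rw [hm]
    have : (1 : ℤ) ≤ |c i| := Int.one_le_abs hci0
    exact_mod_cast this
  have hm0 : 0 < m := by linarith
  rw [← hm] at hci
  obtain ⟨R, hR⟩ : ∃ R, R = ⌊(X : ℝ) ^ (σ / (2 * d))⌋₊ := ⟨_, rfl⟩
  obtain ⟨H, hH⟩ : ∃ H, H = ⌊(X : ℝ) ^ σ⌋₊ := ⟨_, rfl⟩
  obtain ⟨G, hG⟩ : ∃ G, G = ⌊L ^ T⌋₊ := ⟨_, rfl⟩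
  have hR1 : 1 ≤ R := by
    rw [hR]
    apply Nat.le_floor
    push_cast
    linarith
  have hH12 : 12 ≤ H := by
    rw [hH]
    apply Nat.le_floor
    push_cast
    linarith
  have hHle : (H : ℝ) ≤ (X : ℝ) ^ σ := by rw [hH]; exact Nat.floor_le (by positivity)
  have hRle : (R : ℝ) ≤ (X : ℝ) ^ (σ / (2 * d)) := by rw [hR]; exact Nat.floor_le (by positivity)
  have hRge : (X : ℝ) ^ (σ / (2 * d)) / 2 ≤ R := by
    have := Nat.lt_floor_add_one ((X : ℝ) ^ (σ / (2 * d)))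
    rw [← hR] at this
    linarith
  have hHX : H ≤ X := by
    have h1 : (H : ℝ) ≤ X := by
      calc (H : ℝ) ≤ (X : ℝ) ^ σ := hHle
        _ ≤ (X : ℝ) ^ (1 : ℝ) := Real.rpow_le_rpow_of_exponent_le hX1 hσ1
        _ = X := Real.rpow_one _
    exact_mod_cast h1
  have hRH : R ^ d * k ≤ H := by
    rw [hH]
    apply Nat.le_floor
    push_cast
    calc (R : ℝ) ^ d * k ≤ ((X : ℝ) ^ (σ / (2 * d))) ^ d * L ^ U := by
          apply mul_le_mul (pow_le_pow_left₀ (by positivity) hRle d) hkL (by positivity) (by positivity)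
      _ = (X : ℝ) ^ (σ / 2) * L ^ U := by
          rw [← Real.rpow_natCast, ← Real.rpow_mul hX0.le]
          congr 2
          field_simp
      _ ≤ (X : ℝ) ^ (σ / 2) * (X : ℝ) ^ (σ / 2) := mul_le_mul_of_nonneg_left f3 (by positivity)
      _ = (X : ℝ) ^ σ := by rw [← Real.rpow_add hX0]; congr 1; ring
  -- the range
  obtain ⟨x, hx⟩ : ∃ x : ℝ, x = (d + 1) * m * X := ⟨_, rfl⟩
  have hxX : m * X ≤ x := by
    rw [hx]
    have : m * X ≤ (d + 1) * (m * X) := le_mul_of_one_le_left (by positivity) (by linarith)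
    linarith
  have hXx : (X : ℝ) ≤ x := le_trans (le_mul_of_one_le_left hX0.le hm1) hxX
  have hx0 : 0 < x := by linarith
  have hLx : L ≤ Real.log x := by
    rw [hL]
    exact Real.log_le_log hX0 hXx
  have hqx : d * m * H ≤ x ^ (θ - ρ) := by
    have h1 : (m * X) ^ (θ - ρ) ≤ x ^ (θ - ρ) := Real.rpow_le_rpow (by positivity) hxX (by linarith)
    refine le_trans ?_ h1
    have h2 : m ^ (1 - θ + ρ) ≤ (X : ℝ) ^ (τ * (1 - θ + ρ)) := by
      rw [Real.rpow_mul hX0.le]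
      exact Real.rpow_le_rpow hm0.le hci (by linarith)
    have h3 : d * (H : ℝ) * m ^ (1 - θ + ρ) ≤ (X : ℝ) ^ (θ - ρ) := by
      calc d * (H : ℝ) * m ^ (1 - θ + ρ) ≤ (X : ℝ) ^ σ * (X : ℝ) ^ σ * (X : ℝ) ^ (τ * (1 - θ + ρ)) := by
            apply mul_le_mul _ h2 (by positivity) (by positivity)
            exact mul_le_mul f4 hHle (by positivity) (by positivity)
        _ = (X : ℝ) ^ (2 * σ + τ * (1 - θ + ρ)) := by
            rw [← Real.rpow_add hX0, ← Real.rpow_add hX0]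
            congr 1
            ring
        _ ≤ (X : ℝ) ^ (θ - ρ) := Real.rpow_le_rpow_of_exponent_le hX1 hexp
    rw [Real.mul_rpow hm0.le hX0.le]
    calc d * m * H = (d * (H : ℝ) * m ^ (1 - θ + ρ)) * m ^ (θ - ρ) := by
          have : m ^ (1 - θ + ρ) * m ^ (θ - ρ) = m := by
            rw [← Real.rpow_add hm0]
            have : 1 - θ + ρ + (θ - ρ) = 1 := by ring
            rw [this, Real.rpow_one]
          calc d * m * H = d * H * m := by ring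
            _ = d * (H : ℝ) * (m ^ (1 - θ + ρ) * m ^ (θ - ρ)) := by rw [this]
            _ = _ := by ring
      _ ≤ (X : ℝ) ^ (θ - ρ) * m ^ (θ - ρ) := mul_le_mul_of_nonneg_right h3 (by positivity)
      _ = m ^ (θ - ρ) * (X : ℝ) ^ (θ - ρ) := mul_comm _ _
  obtain ⟨q, hq1, hq2, hq3, hq4⟩ := bad_le hd c u e k hk1 hkz i hci0 hmax X H G R he hH12 hHX hR1 hRH P x
    (x / Real.log x ^ (A + 1)) (by rw [hx, hm]) (by
      have : 0 ≤ Real.log x := by linarith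
      positivity) (by
      intro q hq1 hq2 a ha
      rw [← hm] at hq2
      have h1 := hx₀ x (f1.trans hXx) q hq1 (hq2.trans hqx) a (by
        calc ((Int.gcd a q : ℕ) : ℝ) ≤ (G : ℝ) := by exact_mod_cast ha
          _ ≤ L ^ T := by rw [hG]; exact Nat.floor_le (by positivity)
          _ ≤ Real.log x ^ T := pow_le_pow_left₀ hL0.le hLx T)
      refine ⟨h1.1, h1.2.trans (le_of_eq ?_)⟩
      rw [div_div, mul_comm (q : ℝ)])
  rw [← hm] at hq2 hq3
  have hq0 : (0 : ℝ) < q := by exact_mod_cast hq1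
  have hH0 : (0 : ℝ) < H := by exact_mod_cast (by omega : 0 < H)
  have hpow : (X : ℝ) ^ d = X * X ^ (d - 1) := by
    conv_lhs => rw [show d = (d - 1) + 1 by omega, pow_succ]
    ring
  have hXd : (0 : ℝ) < (X : ℝ) ^ (d - 1) := by positivity
  -- the first term
  have t1 : 8 * (4 ^ d * (k : ℝ) ^ 2 * X ^ d) / (G + 1) ≤ X ^ d / (4 * L ^ A) := by
    have h1 : L ^ T ≤ G + 1 := by
      have := Nat.lt_floor_add_one (L ^ T)
      rw [← hG] at this
      linarith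
    have h2 : (k : ℝ) ^ 2 ≤ L ^ (2 * U) := by
      calc (k : ℝ) ^ 2 ≤ (L ^ U) ^ 2 := pow_le_pow_left₀ (by positivity) hkL 2
        _ = L ^ (2 * U) := by rw [← pow_mul, mul_comm]
    have h3 : 8 * (4 ^ d * (k : ℝ) ^ 2 * X ^ d) / (G + 1) ≤ 8 * (4 ^ d * L ^ (2 * U) * X ^ d) / L ^ T := by
      apply div_le_div₀ (by positivity) _ (by positivity) h1
      apply mul_le_mul_of_nonneg_left _ (by norm_num)
      apply mul_le_mul_of_nonneg_right _ (by positivity)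
      exact mul_le_mul_of_nonneg_left h2 (by positivity)
    refine h3.trans ?_
    have h4 : L ^ T = L ^ A * L * L ^ (2 * U) := by rw [hT, pow_add, pow_succ]
    rw [h4, div_le_div_iff₀ (by positivity) (by positivity)]
    have h5 : 8 * (4 : ℝ) ^ d * 4 ≤ L := by linarith
    calc 8 * (4 ^ d * L ^ (2 * U) * X ^ d) * (4 * L ^ A) = (8 * (4 : ℝ) ^ d * 4) * (L ^ (2 * U) * X ^ d * L ^ A) := by
          ring
      _ ≤ L * (L ^ (2 * U) * X ^ d * L ^ A) := mul_le_mul_of_nonneg_right h5 (by positivity)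
      _ = X ^ d * (L ^ A * L * L ^ (2 * U)) := by ring
  -- the second term
  have t2 : q.divisors.card * (((X / R : ℕ) + 1) * X ^ (d - 1)) ≤ (X : ℝ) ^ d / (4 * L ^ A) := by
    have h1 := hC q (by omega)
    have h2 : (q : ℝ) ≤ (X : ℝ) ^ β := by
      calc (q : ℝ) ≤ d * m * H := hq3
        _ ≤ (X : ℝ) ^ σ * (X : ℝ) ^ τ * (X : ℝ) ^ σ := by
            apply mul_le_mul _ hHle (by positivity) (by positivity)
            exact mul_le_mul f4 hci (by positivity) (by positivity)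
        _ = (X : ℝ) ^ (σ + τ + σ) := by
            rw [← Real.rpow_add hX0, ← Real.rpow_add hX0]
        _ ≤ (X : ℝ) ^ β := by
            apply Real.rpow_le_rpow_of_exponent_le hX1
            rw [hβ]
            have := le_abs_self τ
            linarith
    have h3 : (q : ℝ) ^ (σ / (4 * d) / β) ≤ (X : ℝ) ^ (σ / (4 * d)) := by
      calc (q : ℝ) ^ (σ / (4 * d) / β) ≤ ((X : ℝ) ^ β) ^ (σ / (4 * d) / β) :=
            Real.rpow_le_rpow hq0.le h2 (by positivity)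
        _ = (X : ℝ) ^ (σ / (4 * d)) := by
            rw [← Real.rpow_mul hX0.le]
            congr 1
            field_simp
    have hR0 : (0 : ℝ) < R := by exact_mod_cast hR1
    have hY0 : (0 : ℝ) < (X : ℝ) ^ (σ / (2 * d)) := by positivity
    have hYX : (X : ℝ) ^ (σ / (2 * d)) ≤ X := by
      calc (X : ℝ) ^ (σ / (2 * d)) ≤ (X : ℝ) ^ (1 : ℝ) := by
            apply Real.rpow_le_rpow_of_exponent_le hX1
            rw [div_le_one (by positivity)]
            linarith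
        _ = X := Real.rpow_one _
    have h4 : ((X / R : ℕ) : ℝ) + 1 ≤ 3 * X / (X : ℝ) ^ (σ / (2 * d)) := by
      have h5 : ((X / R : ℕ) : ℝ) ≤ (X : ℝ) / R := Nat.cast_div_le
      have h6 : (X : ℝ) / R ≤ X / ((X : ℝ) ^ (σ / (2 * d)) / 2) :=
        div_le_div_of_nonneg_left hX0.le (by positivity) hRge
      have h7 : (X : ℝ) / ((X : ℝ) ^ (σ / (2 * d)) / 2) = 2 * X / (X : ℝ) ^ (σ / (2 * d)) := by
        field_simp
      have h8 : 1 ≤ X / (X : ℝ) ^ (σ / (2 * d)) := by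
        rw [le_div_iff₀ hY0, one_mul]
        exact hYX
      have h9 : 3 * (X : ℝ) / (X : ℝ) ^ (σ / (2 * d)) = 2 * X / (X : ℝ) ^ (σ / (2 * d)) +
          X / (X : ℝ) ^ (σ / (2 * d)) := by ring
      rw [h9]
      linarith
    have h10 : (X : ℝ) ^ (σ / (2 * d)) = (X : ℝ) ^ (σ / (4 * d)) * (X : ℝ) ^ (σ / (4 * d)) := by
      rw [← Real.rpow_add hX0]
      congr 1
      field_simp
      ring
    have hZ0 : (0 : ℝ) < (X : ℝ) ^ (σ / (4 * d)) := by positivity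
    calc (q.divisors.card : ℝ) * (((X / R : ℕ) + 1) * X ^ (d - 1))
        ≤ (C * (X : ℝ) ^ (σ / (4 * d))) * ((3 * X / (X : ℝ) ^ (σ / (2 * d))) * X ^ (d - 1)) := by
          apply mul_le_mul (h1.trans (mul_le_mul_of_nonneg_left h3 hC0.le)) _ (by positivity) (by positivity)
          exact mul_le_mul_of_nonneg_right h4 hXd.le
      _ = 3 * C * X ^ d / (X : ℝ) ^ (σ / (4 * d)) := by
          rw [h10, hpow]
          field_simp
      _ ≤ (X : ℝ) ^ d / (4 * L ^ A) := by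
          rw [div_le_div_iff₀ hZ0 (by positivity)]
          calc 3 * C * (X : ℝ) ^ d * (4 * L ^ A) = (X : ℝ) ^ d * (12 * C * L ^ A) := by ring
            _ ≤ (X : ℝ) ^ d * (X : ℝ) ^ (σ / (4 * d)) := mul_le_mul_of_nonneg_left f5 (by positivity)
  -- the third term
  have t3 : x / Real.log x ^ (A + 1) / q * (d * (H * X ^ (d - 1))) ≤ (X : ℝ) ^ d / (4 * L ^ A) := by
    have h1 : x / Real.log x ^ (A + 1) ≤ x / L ^ (A + 1) :=
      div_le_div_of_nonneg_left hx0.le (by positivity) (pow_le_pow_left₀ hL0.le hLx _)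
    have h2 : x / Real.log x ^ (A + 1) / q ≤ x / L ^ (A + 1) / (m * H / 8) := by
      apply div_le_div₀ (by positivity) h1 (by positivity)
      linarith
    have h3 : x / L ^ (A + 1) / (m * H / 8) * (d * (H * X ^ (d - 1))) =
        8 * (d * (d + 1)) * (X * X ^ (d - 1)) / L ^ (A + 1) := by
      rw [hx]
      field_simp
    calc x / Real.log x ^ (A + 1) / q * (d * (H * X ^ (d - 1)))
        ≤ x / L ^ (A + 1) / (m * H / 8) * (d * (H * X ^ (d - 1))) := mul_le_mul_of_nonneg_right h2 (by positivity)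
      _ = 8 * (d * (d + 1)) * X ^ d / L ^ (A + 1) := by rw [h3, ← hpow]
      _ ≤ (X : ℝ) ^ d / (4 * L ^ A) := by
          rw [div_le_div_iff₀ (by positivity) (by positivity), pow_succ]
          calc 8 * (d * (d + 1)) * (X : ℝ) ^ d * (4 * L ^ A) = (32 * (d * (d + 1))) * ((X : ℝ) ^ d * L ^ A) := by ring
            _ ≤ L * ((X : ℝ) ^ d * L ^ A) := mul_le_mul_of_nonneg_right f8 (by positivity)
            _ = (X : ℝ) ^ d * (L ^ A * L) := by ring
  have hfin : (X : ℝ) ^ d / (4 * L ^ A) = (X : ℝ) ^ d / L ^ A / 4 := by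
    field_simp
  rw [hfin] at t1 t2 t3
  have h0 : 0 ≤ (X : ℝ) ^ d / L ^ A := by positivity
  linarith

open Classical in
/-- **Families of forms.** -/
theorem family (hd : d ≠ 0) (θ η : ℝ) (hθ0 : 0 < θ) (hθ1 : θ < 1) (hη0 : 0 < η) (P : ℕ → Prop)
    (hP : Run7.h469.CT.Few θ P) (A U : ℕ) : ∃ X₀ : ℕ, ∀ X : ℕ, X₀ ≤ X → ∀ 𝓛 : Finset ((Fin d → ℤ) × ℤ),
      ((𝓛.card : ℝ) ≤ Real.log X ^ U) → (∀ l ∈ 𝓛, Admissible (θ / (1 - θ) - η) U X l.1 l.2) →
      (((box d X).filter (fun v => ∃ l ∈ 𝓛, 0 < val l.1 l.2 v ∧ ¬ P (val l.1 l.2 v).toNat)).card : ℝ) ≤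
        (X : ℝ) ^ d / Real.log X ^ A := by
  obtain ⟨X₀, hX₀⟩ := one_form hd θ η hθ0 hθ1 hη0 P hP (A + U) U
  refine ⟨X₀ + 3, fun X hX 𝓛 hcard hadm => ?_⟩
  have hL : 0 < Real.log X := Real.log_pos (by exact_mod_cast (by omega : 1 < X))
  have h1 : (((box d X).filter (fun v => ∃ l ∈ 𝓛, 0 < val l.1 l.2 v ∧ ¬ P (val l.1 l.2 v).toNat)).card : ℝ) ≤
      ∑ l ∈ 𝓛, (((box d X).filter (fun v => 0 < val l.1 l.2 v ∧ ¬ P (val l.1 l.2 v).toNat)).card : ℝ) := by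
    have h2 : ((box d X).filter (fun v => ∃ l ∈ 𝓛, 0 < val l.1 l.2 v ∧ ¬ P (val l.1 l.2 v).toNat)) ⊆
        𝓛.biUnion (fun l => (box d X).filter (fun v => 0 < val l.1 l.2 v ∧ ¬ P (val l.1 l.2 v).toNat)) := by
      intro v hv
      rw [mem_filter] at hv
      obtain ⟨h3, l, h4, h5⟩ := hv
      rw [mem_biUnion]
      exact ⟨l, h4, mem_filter.2 ⟨h3, h5⟩⟩
    have h3 := (card_le_card h2).trans card_biUnion_le
    exact_mod_cast h3
  refine h1.trans ?_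
  calc ∑ l ∈ 𝓛, (((box d X).filter (fun v => 0 < val l.1 l.2 v ∧ ¬ P (val l.1 l.2 v).toNat)).card : ℝ)
      ≤ ∑ _l ∈ 𝓛, (X : ℝ) ^ d / Real.log X ^ (A + U) :=
        sum_le_sum (fun l hl => hX₀ X (by omega) l.1 l.2 (hadm l hl))
    _ = 𝓛.card * ((X : ℝ) ^ d / Real.log X ^ (A + U)) := by rw [sum_const, nsmul_eq_mul]
    _ ≤ Real.log X ^ U * ((X : ℝ) ^ d / Real.log X ^ (A + U)) :=
        mul_le_mul_of_nonneg_right hcard (by positivity)
    _ = (X : ℝ) ^ d / Real.log X ^ A := by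
        rw [pow_add]
        field_simp

end Run7.h469.LF
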